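import Mathlib

/-!
# Free monoids, prefixes, marked morphisms
-/

set_option autoImplicit false

namespace Pool.Agent.Helper22.D0L

open FreeMonoid

variable {α : Type*}

/-- comparable for the prefix order -/
def Cmp (u v : FreeMonoid α) : Prop := u ∣ v ∨ v ∣ u

theorem Cmp.symm {u v : FreeMonoid α} (h : Cmp u v) : Cmp v u := Or.symm h

theorem cmp_of_mul {a b c d : FreeMonoid α} (h : a * c = b * d) : Cmp a b := by
  have h' : toList a ++ toList c = toList b ++ toList d := by
    rw [← toList_mul, ← toList_mul, h]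
  rcases List.append_eq_append_iff.1 h' with ⟨e, h1, -⟩ | ⟨e, h1, -⟩
  · left; exact ⟨ofList e, h1⟩
  · right; exact ⟨ofList e, h1⟩

theorem eq_of_mul_len {a b c d : FreeMonoid α} (h : a * c = b * d) (hl : a.length = b.length) :
    a = b := by
  have h' : toList a ++ toList c = toList b ++ toList d := by
    rw [← toList_mul, ← toList_mul, h]
  exact (List.append_inj h' hl).1

theorem len_le_of_dvd {a b : FreeMonoid α} (h : a ∣ b) : a.length ≤ b.length := by
  obtain ⟨c, rfl⟩ := h
  rw [length_mul]; omega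

theorem eq_of_dvd_len {a b : FreeMonoid α} (h : a ∣ b) (hl : b.length ≤ a.length) : a = b := by
  obtain ⟨c, rfl⟩ := h
  rw [length_mul] at hl
  have : c.length = 0 := by omega
  rw [length_eq_zero.1 this, mul_one]

theorem Cmp.eq_of_len {a b : FreeMonoid α} (h : Cmp a b) (hl : a.length = b.length) : a = b := by
  rcases h with h | h
  · exact eq_of_dvd_len h hl.ge
  · exact (eq_of_dvd_len h hl.le).symm

theorem cmp_prefix {u v a b : FreeMonoid α} (h : Cmp u v) (ha : a ∣ u) (hb : b ∣ v) : Cmp a b := by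
  rcases h with h | h
  · obtain ⟨c, rfl⟩ := ha
    obtain ⟨d, hd⟩ := hb
    obtain ⟨e, he⟩ := h
    rw [he, mul_assoc] at hd
    exact cmp_of_mul hd
  · obtain ⟨c, hc⟩ := ha
    obtain ⟨d, rfl⟩ := hb
    obtain ⟨e, he⟩ := h
    rw [he, mul_assoc] at hc
    exact cmp_of_mul hc.symm

theorem of_mul_inj {x y : α} {u v : FreeMonoid α} (h : of x * u = of y * v) : x = y ∧ u = v := by
  have h' : x :: toList u = y :: toList v := h
  have h2 := List.cons.inj h'
  exact ⟨h2.1, h2.2⟩

theorem cmp_head {a u v : FreeMonoid α} {x y : α} (h : Cmp (a * (of x * u)) (a * (of y * v))) :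
    x = y := by
  rcases h with ⟨c, hc⟩ | ⟨c, hc⟩
  · rw [mul_assoc] at hc
    have := mul_left_cancel hc
    rw [mul_assoc] at this
    exact (of_mul_inj this).1.symm
  · rw [mul_assoc] at hc
    have := mul_left_cancel hc
    rw [mul_assoc] at this
    exact (of_mul_inj this).1

theorem exists_head {w : FreeMonoid α} (hw : w ≠ 1) : ∃ x u, w = of x * u := by
  induction w using FreeMonoid.recOn with
  | one => exact absurd rfl hw
  | of_mul x xs _ => exact ⟨x, xs, rfl⟩

/-- the longest common prefix -/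
theorem lcp (u v : FreeMonoid α) : ∃ p u' v' : FreeMonoid α, u = p * u' ∧ v = p * v' ∧
    (u' = 1 ∨ v' = 1 ∨ ∃ x x' u'' v'', x ≠ x' ∧ u' = of x * u'' ∧ v' = of x' * v'') := by
  classical
  induction u using FreeMonoid.recOn generalizing v with
  | one => exact ⟨1, 1, v, rfl, rfl, Or.inl rfl⟩
  | of_mul x u ih =>
    by_cases hv : v = 1
    · exact ⟨1, of x * u, v, (one_mul _).symm, (one_mul _).symm, Or.inr (Or.inl hv)⟩
    · obtain ⟨y, v, rfl⟩ := exists_head hv
      by_cases hxy : x = y
      · subst hxy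
        obtain ⟨p, u', v', h1, h2, h3⟩ := ih v
        refine ⟨of x * p, u', v', ?_, ?_, h3⟩
        · rw [h1, mul_assoc]
        · rw [h2, mul_assoc]
      · exact ⟨1, of x * u, of y * v, (one_mul _).symm, (one_mul _).symm,
          Or.inr (Or.inr ⟨x, y, u, v, hxy, rfl, rfl⟩)⟩

/-- commuting words are powers of a common word -/
theorem comm_pow (n : ℕ) : ∀ x y : FreeMonoid α, x.length + y.length ≤ n → x * y = y * x →
    ∃ (c : FreeMonoid α) (i j : ℕ), x = c ^ i ∧ y = c ^ j := by
  induction n with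
  | zero =>
    intro x y hn _
    have h1 : x.length = 0 := by omega
    have h2 : y.length = 0 := by omega
    exact ⟨1, 0, 0, by rw [length_eq_zero.1 h1]; rfl, by rw [length_eq_zero.1 h2]; rfl⟩
  | succ n ih =>
    -- one case of the induction step
    have key : ∀ x y : FreeMonoid α, x.length + y.length ≤ n + 1 → x * y = y * x → x ∣ y →
        ∃ (c : FreeMonoid α) (i j : ℕ), x = c ^ i ∧ y = c ^ j := by
      intro x y hn hxy hd
      obtain ⟨u, rfl⟩ := hd
      by_cases hx : x = 1
      · subst hx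
        exact ⟨u, 0, 1, (pow_zero _).symm, by rw [one_mul, pow_one]⟩
      · have hx' : 0 < x.length := by
          rcases Nat.eq_zero_or_pos x.length with h | h
          · exact absurd (length_eq_zero.1 h) hx
          · exact h
        rw [length_mul] at hn
        have hxu : x * u = u * x := by
          have : x * (x * u) = x * (u * x) := by rw [hxy, mul_assoc]
          exact mul_left_cancel this
        obtain ⟨c, i, j, h1, h2⟩ := ih x u (by omega) hxu
        exact ⟨c, i, i + j, h1, by rw [pow_add, ← h1, ← h2]⟩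
    intro x y hn hxy
    rcases cmp_of_mul hxy with h | h
    · exact key x y hn hxy h
    · obtain ⟨c, i, j, h1, h2⟩ := key y x (by omega) hxy.symm h
      exact ⟨c, j, i, h2, h1⟩

theorem length_pow (c : FreeMonoid α) (i : ℕ) : (c ^ i).length = i * c.length := by
  induction i with
  | zero => rw [pow_zero, length_one, zero_mul]
  | succ i ih => rw [pow_succ, length_mul, ih]; ring

theorem pow_left_inj' {a b : FreeMonoid α} {i : ℕ} (hi : 0 < i) (h : a ^ i = b ^ i) : a = b := by
  have hl := congrArg length h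
  rw [length_pow, length_pow] at hl
  have hl' := Nat.eq_of_mul_eq_mul_left hi hl
  obtain ⟨i, rfl⟩ : ∃ k, i = k + 1 := ⟨i - 1, by omega⟩
  rw [pow_succ', pow_succ'] at h
  exact eq_of_mul_len h hl'

/-! ### marked morphisms -/

/-- the first letters of the images of the letters exist and are pairwise distinct -/
def Mk (A : FreeMonoid α →* FreeMonoid α) : Prop :=
  ∃ φ : α → α, Function.Injective φ ∧ ∀ x, ∃ w, A (of x) = of (φ x) * w

/-- iterates -/
def it (H : FreeMonoid α →* FreeMonoid α) : ℕ → (FreeMonoid α →* FreeMonoid α)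
  | 0 => MonoidHom.id _
  | k + 1 => (it H k).comp H

theorem it_zero (H : FreeMonoid α →* FreeMonoid α) (w : FreeMonoid α) : it H 0 w = w := rfl

theorem it_succ (H : FreeMonoid α →* FreeMonoid α) (k : ℕ) (w : FreeMonoid α) :
    it H (k + 1) w = it H k (H w) := rfl

theorem it_succ' (H : FreeMonoid α →* FreeMonoid α) (k : ℕ) (w : FreeMonoid α) :
    it H (k + 1) w = H (it H k w) := by
  induction k generalizing w with
  | zero => rfl
  | succ k ih => rw [it_succ, ih, it_succ]

theorem Mk.it {H : FreeMonoid α →* FreeMonoid α} (h : Mk H) (k : ℕ) : Mk (it H k) := by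
  induction k with
  | zero => exact ⟨id, Function.injective_id, fun x => ⟨1, (mul_one _).symm⟩⟩
  | succ k ih =>
    obtain ⟨φ, h1, h2⟩ := h
    obtain ⟨ψ, h3, h4⟩ := ih
    refine ⟨ψ ∘ φ, h3.comp h1, fun x => ?_⟩
    obtain ⟨w, hw⟩ := h2 x
    obtain ⟨v, hv⟩ := h4 (φ x)
    refine ⟨v * D0L.it H k w, ?_⟩
    rw [it_succ, hw, map_mul, hv, mul_assoc]
    rfl

theorem Mk.len {A : FreeMonoid α →* FreeMonoid α} (h : Mk A) (w : FreeMonoid α) :
    w.length ≤ (A w).length := by
  obtain ⟨φ, -, h2⟩ := h
  induction w using FreeMonoid.recOn with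
  | one => rw [map_one]
  | of_mul x xs ih =>
    obtain ⟨v, hv⟩ := h2 x
    rw [map_mul, hv, length_mul, length_mul, length_mul, length_of, length_of]
    omega

/-- the next letter is determined -/
theorem det_one {A B : FreeMonoid α →* FreeMonoid α} (hA : Mk A) (hB : Mk B)
    {Z Y p : FreeMonoid α} {x x' : α} (hne : Z * A p ≠ Y * B p)
    (h1 : Cmp (Z * A (p * of x)) (Y * B (p * of x)))
    (h2 : Cmp (Z * A (p * of x')) (Y * B (p * of x'))) : x = x' := by
  have hc : Cmp (Z * A p) (Y * B p) := by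
    refine cmp_prefix h1 ⟨A (of x), ?_⟩ ⟨B (of x), ?_⟩
    · rw [map_mul, mul_assoc]
    · rw [map_mul, mul_assoc]
  rcases hc with ⟨c, hc⟩ | ⟨c, hc⟩
  · have hc1 : c ≠ 1 := by
      rintro rfl
      rw [mul_one] at hc
      exact hne hc.symm
    obtain ⟨b, r, rfl⟩ := exists_head hc1
    obtain ⟨φ, hφ, hφ2⟩ := hA
    have key : ∀ y, Cmp (Z * A (p * of y)) (Y * B (p * of y)) → φ y = b := by
      intro y hy
      obtain ⟨w, hw⟩ := hφ2 y
      rw [map_mul, map_mul, ← mul_assoc, ← mul_assoc Y, hc, hw, mul_assoc (Z * A p),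
        mul_assoc (of b)] at hy
      exact cmp_head hy
    exact hφ ((key x h1).trans (key x' h2).symm)
  · have hc1 : c ≠ 1 := by
      rintro rfl
      rw [mul_one] at hc
      exact hne hc
    obtain ⟨b, r, rfl⟩ := exists_head hc1
    obtain ⟨φ, hφ, hφ2⟩ := hB
    have key : ∀ y, Cmp (Z * A (p * of y)) (Y * B (p * of y)) → φ y = b := by
      intro y hy
      obtain ⟨w, hw⟩ := hφ2 y
      rw [map_mul, map_mul, ← mul_assoc, ← mul_assoc Y, hc, hw, mul_assoc (Y * B p),
        mul_assoc (of b)] at hy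
      exact cmp_head hy.symm
    exact hφ ((key x h1).trans (key x' h2).symm)

/-! ### states -/

section states

variable (A B : ℕ → (FreeMonoid α →* FreeMonoid α)) (Z Y : ℕ → FreeMonoid α)

/-- the words with empty offsets -/
def RR (t : ℕ) (w : FreeMonoid α) : Prop := ∀ i ≤ t, Z i * A i w = Y i * B i w

/-- the words with comparable images -/
def CC (t : ℕ) (w : FreeMonoid α) : Prop := ∀ i ≤ t, Cmp (Z i * A i w) (Y i * B i w)

/-- the words with equal images -/
def MM (t : ℕ) (w : FreeMonoid α) : Prop := ∀ i ≤ t, A i w = B i w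

variable {A B Z Y}

theorem RR.anti {s t : ℕ} (h : s ≤ t) {w : FreeMonoid α} (hw : RR A B Z Y t w) :
    RR A B Z Y s w := fun i hi => hw i (hi.trans h)

theorem MM.anti {s t : ℕ} (h : s ≤ t) {w : FreeMonoid α} (hw : MM A B t w) :
    MM A B s w := fun i hi => hw i (hi.trans h)

theorem RR.cc {t : ℕ} {w : FreeMonoid α} (hw : RR A B Z Y t w) : CC A B Z Y t w :=
  fun i hi => Or.inl (by rw [hw i hi])

theorem CC.pre {t : ℕ} {w v : FreeMonoid α} (h : CC A B Z Y t (w * v)) : CC A B Z Y t w := by
  intro i hi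
  refine cmp_prefix (h i hi) ⟨A i v, ?_⟩ ⟨B i v, ?_⟩
  · rw [map_mul, mul_assoc]
  · rw [map_mul, mul_assoc]

theorem MM.one (t : ℕ) : MM A B t 1 := fun i _ => by rw [map_one, map_one]

theorem MM.mul {t : ℕ} {u v : FreeMonoid α} (hu : MM A B t u) (hv : MM A B t v) :
    MM A B t (u * v) := fun i hi => by rw [map_mul, map_mul, hu i hi, hv i hi]

theorem MM.cancel_left {t : ℕ} {u v : FreeMonoid α} (hu : MM A B t u) (huv : MM A B t (u * v)) :
    MM A B t v := fun i hi => by
  have := huv i hi
  rw [map_mul, map_mul, hu i hi] at this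
  exact mul_left_cancel this

theorem MM.pow {t : ℕ} {u : FreeMonoid α} (hu : MM A B t u) (k : ℕ) : MM A B t (u ^ k) :=
  fun i hi => by rw [map_pow, map_pow, hu i hi]

theorem MM.root {t k : ℕ} (hk : 0 < k) {u : FreeMonoid α} (hu : MM A B t (u ^ k)) : MM A B t u :=
  fun i hi => by
    have := hu i hi
    rw [map_pow, map_pow] at this
    exact pow_left_inj' hk this

theorem RR.mul {t : ℕ} {p m : FreeMonoid α} (hp : RR A B Z Y t p) (hm : MM A B t m) :
    RR A B Z Y t (p * m) := fun i hi => by
  rw [map_mul, map_mul, ← mul_assoc, ← mul_assoc, hp i hi, hm i hi]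

theorem RR.quot {t : ℕ} {p m : FreeMonoid α} (hp : RR A B Z Y t p)
    (hpm : RR A B Z Y t (p * m)) : MM A B t m := fun i hi => by
  have := hpm i hi
  rw [map_mul, map_mul, ← mul_assoc, ← mul_assoc, hp i hi] at this
  exact mul_left_cancel this

theorem RR.of_mul {t : ℕ} {p m : FreeMonoid α} (hm : MM A B t m)
    (hpm : RR A B Z Y t (p * m)) : RR A B Z Y t p := fun i hi => by
  have := hpm i hi
  rw [map_mul, map_mul, ← mul_assoc, ← mul_assoc, hm i hi] at this
  exact mul_right_cancel this

theorem MM.rr {t : ℕ} {w : FreeMonoid α} :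
    RR A B (fun _ => 1) (fun _ => 1) t w ↔ MM A B t w := by
  constructor
  · intro h i hi
    have h1 : 1 * A i w = 1 * B i w := h i hi
    rwa [one_mul, one_mul] at h1
  · intro h i hi
    change 1 * A i w = 1 * B i w
    rw [one_mul, one_mul, h i hi]

variable (hA : ∀ i, Mk (A i)) (hB : ∀ i, Mk (B i))

include hA hB

theorem det {t : ℕ} {p : FreeMonoid α} {x x' : α} (h1 : CC A B Z Y t (p * of x))
    (h2 : CC A B Z Y t (p * of x')) (hxx : x ≠ x') : RR A B Z Y t p := by
  intro i hi
  by_contra hne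
  exact hxx (det_one (hA i) (hB i) hne (h1 i hi) (h2 i hi))

/-- two comparable paths branch only at an empty state -/
theorem branch {t : ℕ} {u v : FreeMonoid α} (hu : CC A B Z Y t u) (hv : CC A B Z Y t v) :
    Cmp u v ∨ ∃ p, RR A B Z Y t p ∧ p ∣ u ∧ p ∣ v ∧ p.length < u.length ∧ p.length < v.length := by
  obtain ⟨p, u', v', rfl, rfl, h | h | ⟨x, x', u'', v'', hxx, rfl, rfl⟩⟩ := lcp u v
  · left; left; rw [h, mul_one]; exact ⟨v', rfl⟩
  · left; right; rw [h, mul_one]; exact ⟨u', rfl⟩
  · right
    rw [← mul_assoc] at hu hv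
    refine ⟨p, det hA hB hu.pre hv.pre hxx, ⟨_, rfl⟩, ⟨_, rfl⟩, ?_, ?_⟩
    · rw [length_mul, length_mul, length_of]; omega
    · rw [length_mul, length_mul, length_of]; omega

/-- the shortest word with empty offset -/
theorem shortest {t : ℕ} (hne : ∃ p, RR A B Z Y t p) : ∃ p, RR A B Z Y t p ∧
    ∀ u, RR A B Z Y t u → p ∣ u := by
  classical
  have hex : ∃ n, ∃ p : FreeMonoid α, RR A B Z Y t p ∧ p.length = n := by
    obtain ⟨p, hp⟩ := hne
    exact ⟨_, p, hp, rfl⟩
  obtain ⟨p, hp, hlen⟩ := Nat.find_spec hex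
  refine ⟨p, hp, fun u hu => ?_⟩
  have hmin : p.length ≤ u.length := by
    by_contra hc
    push Not at hc
    exact Nat.find_min hex (m := u.length) (by rw [← hlen]; exact hc) ⟨u, hu, rfl⟩
  rcases branch hA hB hp.cc hu.cc with (h | h) | ⟨q, hq, -, -, h1, -⟩
  · exact h
  · rw [eq_of_dvd_len h hmin]
  · exfalso
    exact Nat.find_min hex (m := q.length) (by rw [← hlen]; exact h1) ⟨q, hq, rfl⟩

/-- the shortest nonempty word with equal images with given first letter -/
theorem shortest_M {t : ℕ} {a : α} (hne : ∃ w, MM A B t (of a * w)) : ∃ m, MM A B t (of a * m) ∧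
    ∀ w, MM A B t (of a * w) → of a * m ∣ of a * w := by
  classical
  have hex : ∃ n, ∃ w : FreeMonoid α, MM A B t (of a * w) ∧ w.length = n := by
    obtain ⟨p, hp⟩ := hne
    exact ⟨_, p, hp, rfl⟩
  obtain ⟨m, hm, hlen⟩ := Nat.find_spec hex
  have hmin : ∀ w, MM A B t (of a * w) → m.length ≤ w.length := by
    intro w hw
    by_contra hc
    push Not at hc
    exact Nat.find_min hex (m := w.length) (by rw [← hlen]; exact hc) ⟨w, hw, rfl⟩
  refine ⟨m, hm, fun w hw => ?_⟩
  obtain ⟨p, u', v', hu, hv, hcase⟩ := lcp (of a * m) (of a * w)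
  by_cases hp1 : p = 1
  · exfalso
    subst hp1
    rw [one_mul] at hu hv
    rcases hcase with h | h | ⟨x, x', u'', v'', hxx, h1, h2⟩
    · rw [h] at hu
      have := congrArg length hu
      rw [length_mul, length_of, length_one] at this
      omega
    · rw [h] at hv
      have := congrArg length hv
      rw [length_mul, length_of, length_one] at this
      omega
    · rw [h1] at hu
      rw [h2] at hv
      exact hxx ((of_mul_inj hu).1.symm.trans (of_mul_inj hv).1)
  · obtain ⟨b, p', rfl⟩ := exists_head hp1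
    rw [mul_assoc] at hu hv
    obtain ⟨hab, hm'⟩ := of_mul_inj hu
    obtain ⟨-, hw'⟩ := of_mul_inj hv
    subst hab
    rcases hcase with h | h | ⟨x, x', u'', v'', hxx, h1, h2⟩
    · rw [h, mul_one] at hm'
      rw [hm', hw', ← mul_assoc]
      exact ⟨v', rfl⟩
    · rw [h, mul_one] at hw'
      have h3 := hmin w hw
      rw [hm', hw', length_mul] at h3
      have h4 : u'.length = 0 := by omega
      rw [length_eq_zero] at h4
      rw [hm', hw', h4, mul_one]
    · exfalso
      have hp : RR A B (fun _ => 1) (fun _ => 1) t (of a * p') := by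
        apply det hA hB (x := x) (x' := x') _ _ hxx
        · have : of a * m = of a * p' * of x * u'' := by
            rw [hm', h1]; simp only [mul_assoc]
          rw [this] at hm
          exact (MM.rr.2 hm).cc.pre
        · have : of a * w = of a * p' * of x' * v'' := by
            rw [hw', h2]; simp only [mul_assoc]
          rw [this] at hw
          exact (MM.rr.2 hw).cc.pre
      have h3 := hmin p' (MM.rr.1 hp)
      rw [hm', h1, length_mul, length_mul, length_of] at h3
      omega

end states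

end Pool.Agent.Helper22.D0L
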