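import Pool.Agent.Helper22.D0L.Pc

/-!
# If the branching pairs and the span do not change then nothing changes
-/

set_option autoImplicit false

namespace Pool.Agent.Helper22.D0L

open FreeMonoid

variable {α : Type*} {H G H' G' : FreeMonoid α →* FreeMonoid α} {z y : FreeMonoid α}

theorem dvd_of_fork {u v c : FreeMonoid α} (h : Fork u v c) : (∃ s, u = c * s) ∧ ∃ s, v = c * s := by
  obtain ⟨k, k', r, r', -, h2, h3⟩ := h
  exact ⟨⟨_, h2⟩, ⟨_, h3⟩⟩

/-- two words before the same branching pair have the same offset up to level `t` -/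
theorem same_state (hH : Pc H') (hG : Pc G') (hz : ∀ w, H w * z = z * H' w)
    (hy : ∀ w, G w * y = y * G' w) {t : ℕ} {p q u v u' v' : FreeMonoid α} {a b : α} (hab : a ≠ b)
    (h1 : MM (it H) (it G) t (p * (of a * u))) (h2 : MM (it H) (it G) t (p * (of b * v)))
    (h3 : MM (it H) (it G) t (q * (of a * u'))) (h4 : MM (it H) (it G) t (q * (of b * v')))
    (r : FreeMonoid α) (hr : (∃ s, r = of a * s) ∨ ∃ s, r = of b * s) :
    ∀ i ≤ t, ∃ c d, (∃ s, it H' i r = c * s) ∧ (∃ s', it G' i r = d * s') ∧
      Zs H z i * it H' i p * c = Zs G y i * it G' i p * d ∧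
      Zs H z i * it H' i q * c = Zs G y i * it G' i q * d := by
  intro i hi
  obtain ⟨c, hc⟩ := exists_fork ((hH.it i).2 a b hab)
  obtain ⟨d, hd⟩ := exists_fork ((hG.it i).2 a b hab)
  refine ⟨c, d, ?_, ?_, state hH hG hz hy h1 h2 hi hc hd, state hH hG hz hy h3 h4 hi hc hd⟩
  · obtain ⟨⟨s, hs⟩, ⟨s', hs'⟩⟩ := dvd_of_fork hc
    rcases hr with ⟨r', rfl⟩ | ⟨r', rfl⟩
    · exact ⟨s * it H' i r', by rw [map_mul, hs, mul_assoc]⟩
    · exact ⟨s' * it H' i r', by rw [map_mul, hs', mul_assoc]⟩
  · obtain ⟨⟨s, hs⟩, ⟨s', hs'⟩⟩ := dvd_of_fork hd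
    rcases hr with ⟨r', rfl⟩ | ⟨r', rfl⟩
    · exact ⟨s * it G' i r', by rw [map_mul, hs, mul_assoc]⟩
    · exact ⟨s' * it G' i r', by rw [map_mul, hs', mul_assoc]⟩

/-- the step of the main argument -/
theorem next_state (hH : Pc H') (hG : Pc G') (hz : ∀ w, H w * z = z * H' w)
    (hy : ∀ w, G w * y = y * G' w) {t : ℕ}
    (hbal : ∀ w, MM (it H) (it G) t w → (it H (t + 1) w).length = (it G (t + 1) w).length)
    {p q u v r r' : FreeMonoid α} {a b : α} (hab : a ≠ b)
    (h1 : MM (it H) (it G) t (p * (of a * u))) (h2 : MM (it H) (it G) (t + 1) (p * (of b * v)))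
    (h3 : MM (it H) (it G) (t + 1) (q * (of a * r)))
    (h4 : MM (it H) (it G) (t + 1) (q * (of b * r'))) :
    MM (it H) (it G) (t + 1) (p * (of a * r)) := by
  have hle := Nat.le_add_right t 1
  have hst := same_state hH hG hz hy hab h1 (h2.anti hle) (h3.anti hle) (h4.anti hle)
    (of a * r) (Or.inl ⟨r, rfl⟩)
  have h5 : MM (it H) (it G) t (p * (of a * r)) := cont hz hy hst (h3.anti hle)
  refine cont hz hy (q := q) (fun i hi => ?_) h3
  rcases Nat.lt_or_ge i (t + 1) with hlt | hge
  · exact hst i (by omega)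
  · have hit : i = t + 1 := by omega
    subst hit
    obtain ⟨c, hc⟩ := exists_fork ((hH.it (t + 1)).2 a b hab)
    obtain ⟨d, hd⟩ := exists_fork ((hG.it (t + 1)).2 a b hab)
    have hq := state hH hG hz hy h3 h4 le_rfl hc hd
    obtain ⟨⟨s, hs⟩, ⟨s₂, hs₂⟩⟩ := dvd_of_fork hc
    obtain ⟨⟨s', hs'⟩, ⟨s₂', hs₂'⟩⟩ := dvd_of_fork hd
    refine ⟨c, d, ⟨s * it H' (t + 1) r, by rw [map_mul, hs, mul_assoc]⟩,
      ⟨s' * it G' (t + 1) r, by rw [map_mul, hs', mul_assoc]⟩, ?_, hq⟩
    have hcmp : Cmp (Zs H z (t + 1) * it H' (t + 1) p * c) (Zs G y (t + 1) * it G' (t + 1) p * d) := by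
      refine cmp_prefix (cc_pre hH hG hz hy h2 (t + 1) le_rfl) ⟨s₂, ?_⟩ ⟨s₂', ?_⟩
      · rw [map_mul, hs₂]; simp only [mul_assoc]
      · rw [map_mul, hs₂']; simp only [mul_assoc]
    apply hcmp.eq_of_len
    have l1 := hbal _ h5
    have l2 := hbal _ (h3.anti hle)
    rw [len_conj hz, len_conj hy, map_mul _ p, map_mul _ p, length_mul, length_mul] at l1
    rw [len_conj hz, len_conj hy, map_mul _ q, map_mul _ q, length_mul, length_mul] at l2
    have l3 := congrArg length hq
    simp only [length_mul] at l3 ⊢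
    omega

theorem claimA (hH : Pc H') (hG : Pc G') (hz : ∀ w, H w * z = z * H' w)
    (hy : ∀ w, G w * y = y * G' w) {t : ℕ}
    (hbal : ∀ w, MM (it H) (it G) t w → (it H (t + 1) w).length = (it G (t + 1) w).length)
    (hP : ∀ a b, PP H G t a b → PP H G (t + 1) a b)
    (hne : ∃ w₀ : FreeMonoid α, w₀ ≠ 1 ∧ MM (it H) (it G) (t + 1) w₀) (w : FreeMonoid α)
    (hw : MM (it H) (it G) t w) : MM (it H) (it G) (t + 1) w := by
  have hle := Nat.le_add_right t 1
  obtain ⟨n, hn⟩ : ∃ n, w.length ≤ n := ⟨_, le_rfl⟩
  induction n generalizing w with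
  | zero =>
    have : w.length = 0 := by omega
    rw [length_eq_zero] at this
    rw [this]
    exact MM.one _
  | succ n ih =>
    -- inner induction
    have key : ∀ m : ℕ, ∀ p w' w₀' : FreeMonoid α, w'.length ≤ m → w = p * w' → p * w₀' ≠ 1 →
        MM (it H) (it G) (t + 1) (p * w₀') → MM (it H) (it G) (t + 1) w := by
      intro m
      induction m with
      | zero =>
        intro p w' w₀' hm hwp _ hw₀
        have h0 : w'.length = 0 := by omega
        rw [length_eq_zero] at h0
        rw [h0, mul_one] at hwp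
        subst hwp
        intro i hi
        rcases Nat.lt_or_ge i (t + 1) with hlt | hge
        · exact hw i (by omega)
        · have hit : i = t + 1 := by omega
          subst hit
          have h1 := hw₀ (t + 1) le_rfl
          rw [map_mul, map_mul] at h1
          exact eq_of_mul_len h1 (hbal w hw)
      | succ m ihm =>
        intro p w' w₀' hm hwp hne1 hw₀
        obtain ⟨q, w'', w₀'', h1, h2, h3 | h3 | ⟨a, b, u, v, hab, h3, h4⟩⟩ := lcp w' w₀'
        · -- `w` is a prefix
          rw [h3, mul_one] at h1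
          subst h1
          subst hwp
          rw [h2, ← mul_assoc] at hw₀
          intro i hi
          rcases Nat.lt_or_ge i (t + 1) with hlt | hge
          · exact hw i (by omega)
          · have hit : i = t + 1 := by omega
            subst hit
            have h5 := hw₀ (t + 1) le_rfl
            rw [map_mul _ (p * w'), map_mul _ (p * w')] at h5
            exact eq_of_mul_len h5 (hbal _ hw)
        · -- `w₀` is a prefix of `w`
          rw [h3, mul_one] at h2
          subst h2
          rw [h1, ← mul_assoc] at hwp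
          subst hwp
          refine hw₀.mul (ih w'' ((hw₀.anti hle).cancel_left hw) ?_)
          rw [length_mul] at hn
          have h5 : 0 < (p * w₀').length := by
            rcases Nat.eq_zero_or_pos (p * w₀').length with h | h
            · exact absurd (length_eq_zero.1 h) hne1
            · exact h
          omega
        · -- branching
          subst hwp
          rw [h1, h3, ← mul_assoc] at hw
          rw [h2, h4, ← mul_assoc] at hw₀
          have hPP : PP H G t a b := ⟨hab, p * q, ⟨u, hw⟩, ⟨v, hw₀.anti hle⟩⟩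
          obtain ⟨-, q', ⟨r, hr⟩, ⟨r', hr'⟩⟩ := hP a b hPP
          have h5 := next_state hH hG hz hy hbal hab hw hw₀ hr hr'
          refine ihm (p * q * of a) u r ?_ ?_ ?_ ?_
          · have := congrArg length h1
            rw [h3, length_mul, length_mul, length_of] at this
            omega
          · rw [h1, h3]; simp only [mul_assoc]
          · intro h0
            have := congrArg length h0
            simp only [length_mul, length_of, length_one] at this
            omega
          · simpa only [mul_assoc] using h5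
    obtain ⟨w₀, h1, h2⟩ := hne
    exact key w.length 1 w w₀ le_rfl (one_mul _).symm (by rwa [one_mul]) (by rwa [one_mul])

end Pool.Agent.Helper22.D0L
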