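import Pool.Agent.Helper22.D0L.Main

/-!
# The main theorem for lists
-/

set_option autoImplicit false

namespace Pool.Agent.Helper22.D0L

open FreeMonoid

variable {α : Type*}

/-- the morphism of free monoids -/
def hom (h : α → List α) : FreeMonoid α →* FreeMonoid α := lift fun x => ofList (h x)

theorem hom_ofList (h : α → List α) (u : List α) : hom h (ofList u) = ofList (u.flatMap h) := by
  induction u with
  | nil => rw [ofList_nil, map_one]; rfl
  | cons x u ih =>
    rw [ofList_cons, map_mul, ih, List.flatMap_cons, ofList_append]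
    rfl

theorem it_hom (h : α → List α) (k : ℕ) (u : List α) :
    it (hom h) k (ofList u) = ofList ((fun v : List α => v.flatMap h)^[k] u) := by
  induction k generalizing u with
  | zero => rfl
  | succ k ih =>
    rw [it_succ, hom_ofList, ih, Function.iterate_succ_apply]

theorem hom_of (h : α → List α) (x : α) : hom h (of x) = ofList (h x) := by
  unfold hom; rw [lift_eval_of]

theorem mk_hom {h : α → List α} (h1 : ∀ x, h x ≠ [])
    (h2 : ∀ x y, (h x).head? = (h y).head? → x = y) : Mk (hom h) := by
  refine ⟨fun x => (h x).head (h1 x), ?_, ?_⟩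
  · intro x y hxy
    apply h2
    rw [List.head?_eq_some_head (h1 x), List.head?_eq_some_head (h1 y)]
    exact congrArg some hxy
  · intro x
    refine ⟨ofList (h x).tail, ?_⟩
    rw [hom_of, ← ofList_cons, List.cons_head_tail]

theorem conj_hom {h k : α → List α} {z : List α} (hz : ∀ x, h x ++ z = z ++ k x)
    (w : FreeMonoid α) : hom h w * ofList z = ofList z * hom k w := by
  induction w using FreeMonoid.recOn with
  | one => rw [map_one, map_one, one_mul, mul_one]
  | of_mul x xs ih =>
    have h1 : hom h (of x) * ofList z = ofList z * hom k (of x) := by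
      rw [hom_of, hom_of, ← ofList_append, ← ofList_append, hz]
    rw [map_mul, map_mul, mul_assoc, ih, ← mul_assoc, h1, mul_assoc]

theorem main_left [Fintype α] {h₁ h₂ k₁ k₂ : α → List α} {z₁ z₂ : List α}
    (hz₁ : ∀ x, h₁ x ++ z₁ = z₁ ++ k₁ x) (hz₂ : ∀ x, h₂ x ++ z₂ = z₂ ++ k₂ x)
    (hn₁ : ∀ x, k₁ x ≠ []) (hn₂ : ∀ x, k₂ x ≠ [])
    (hm₁ : ∀ x y, (k₁ x).head? = (k₁ y).head? → x = y)
    (hm₂ : ∀ x y, (k₂ x).head? = (k₂ y).head? → x = y) (w : List α)
    (hw : ∀ i < 2 * Fintype.card α, (fun v : List α => v.flatMap h₁)^[i] w =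
      (fun v : List α => v.flatMap h₂)^[i] w) (i : ℕ) :
    (fun v : List α => v.flatMap h₁)^[i] w = (fun v : List α => v.flatMap h₂)^[i] w := by
  have h := main (mk_hom hn₁ hm₁) (mk_hom hn₂ hm₂) (conj_hom hz₁) (conj_hom hz₂) (ofList w)
    (fun j hj => by rw [it_hom, it_hom, hw j hj]) i
  rw [it_hom, it_hom] at h
  exact ofList.injective h

theorem rev_iter (h : α → List α) (k : ℕ) (u : List α) :
    ((fun v : List α => v.flatMap h)^[k] u).reverse =
      (fun v : List α => v.flatMap fun x => (h x).reverse)^[k] u.reverse := by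
  induction k generalizing u with
  | zero => rfl
  | succ k ih =>
    rw [Function.iterate_succ_apply, Function.iterate_succ_apply, ih]
    congr 1
    induction u with
    | nil => rfl
    | cons x u ihu =>
      rw [List.flatMap_cons, List.reverse_append, ihu, List.reverse_cons, List.flatMap_append]
      simp

theorem main_right [Fintype α] {h₁ h₂ k₁ k₂ : α → List α} {z₁ z₂ : List α}
    (hz₁ : ∀ x, z₁ ++ h₁ x = k₁ x ++ z₁) (hz₂ : ∀ x, z₂ ++ h₂ x = k₂ x ++ z₂)
    (hn₁ : ∀ x, k₁ x ≠ []) (hn₂ : ∀ x, k₂ x ≠ [])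
    (hm₁ : ∀ x y, (k₁ x).getLast? = (k₁ y).getLast? → x = y)
    (hm₂ : ∀ x y, (k₂ x).getLast? = (k₂ y).getLast? → x = y) (w : List α)
    (hw : ∀ i < 2 * Fintype.card α, (fun v : List α => v.flatMap h₁)^[i] w =
      (fun v : List α => v.flatMap h₂)^[i] w) (i : ℕ) :
    (fun v : List α => v.flatMap h₁)^[i] w = (fun v : List α => v.flatMap h₂)^[i] w := by
  have h := main_left (h₁ := fun x => (h₁ x).reverse) (h₂ := fun x => (h₂ x).reverse)
    (k₁ := fun x => (k₁ x).reverse) (k₂ := fun x => (k₂ x).reverse)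
    (z₁ := z₁.reverse) (z₂ := z₂.reverse)
    (fun x => by rw [← List.reverse_append, hz₁, List.reverse_append])
    (fun x => by rw [← List.reverse_append, hz₂, List.reverse_append])
    (fun x => by simpa using hn₁ x) (fun x => by simpa using hn₂ x)
    (fun x y hxy => hm₁ x y (by simpa using hxy)) (fun x y hxy => hm₂ x y (by simpa using hxy))
    w.reverse (fun j hj => by rw [← rev_iter, ← rev_iter, hw j hj]) i
  rw [← rev_iter, ← rev_iter] at h
  exact List.reverse_injective h

end Pool.Agent.Helper22.D0L
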