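import Pool.Agent.Helper22.D0L.MainP
import Pool.Agent.Helper22.D0L.Lists

/-!
# The theorems on prefix morphisms for lists
-/

set_option autoImplicit false

namespace Pool.Agent.Helper22.D0L

open FreeMonoid

variable {α : Type*}

theorem pc_hom {h : α → List α} (h1 : ∀ x, h x ≠ [])
    (h2 : ∀ x y, x ≠ y → ¬ h x <+: h y) : Pc (hom h) := by
  refine ⟨?_, ?_⟩
  · intro x h0
    rw [hom_of] at h0
    exact h1 x h0
  · intro x y hxy hc
    rw [hom_of, hom_of] at hc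
    rcases hc with ⟨c, hc⟩ | ⟨c, hc⟩
    · exact h2 x y hxy ⟨toList c, hc.symm⟩
    · exact h2 y x hxy.symm ⟨toList c, hc.symm⟩

theorem main_marked_left [Fintype α] {h₁ h₂ k₁ k₂ : α → List α} {z₁ z₂ : List α}
    (hz₁ : ∀ x, h₁ x ++ z₁ = z₁ ++ k₁ x) (hz₂ : ∀ x, h₂ x ++ z₂ = z₂ ++ k₂ x)
    (hn₁ : ∀ x, k₁ x ≠ []) (hn₂ : ∀ x, k₂ x ≠ [])
    (hm₁ : ∀ x y, (k₁ x).head? = (k₁ y).head? → x = y)
    (hm₂ : ∀ x y, x ≠ y → ¬ k₂ x <+: k₂ y) (w : List α)
    (hw : ∀ i < 2 * Fintype.card α, (fun v : List α => v.flatMap h₁)^[i] w =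
      (fun v : List α => v.flatMap h₂)^[i] w) (i : ℕ) :
    (fun v : List α => v.flatMap h₁)^[i] w = (fun v : List α => v.flatMap h₂)^[i] w := by
  classical
  have h := main_marked (mk_hom hn₁ hm₁) (pc_hom hn₂ hm₂) (conj_hom hz₁) (conj_hom hz₂) (ofList w)
    (fun j hj => by rw [it_hom, it_hom, hw j hj]) i
  rw [it_hom, it_hom] at h
  exact ofList.injective h

theorem main_prefix_left [Fintype α] {h₁ h₂ k₁ k₂ : α → List α} {z₁ z₂ : List α}
    (hz₁ : ∀ x, h₁ x ++ z₁ = z₁ ++ k₁ x) (hz₂ : ∀ x, h₂ x ++ z₂ = z₂ ++ k₂ x)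
    (hn₁ : ∀ x, k₁ x ≠ []) (hn₂ : ∀ x, k₂ x ≠ [])
    (hm₁ : ∀ x y, x ≠ y → ¬ k₁ x <+: k₁ y)
    (hm₂ : ∀ x y, x ≠ y → ¬ k₂ x <+: k₂ y) (w : List α)
    (hw : ∀ i ≤ Fintype.card α * (Fintype.card α + 1) / 2,
      (fun v : List α => v.flatMap h₁)^[i] w = (fun v : List α => v.flatMap h₂)^[i] w) (i : ℕ) :
    (fun v : List α => v.flatMap h₁)^[i] w = (fun v : List α => v.flatMap h₂)^[i] w := by
  classical
  have h := main_prefix (pc_hom hn₁ hm₁) (pc_hom hn₂ hm₂) (conj_hom hz₁) (conj_hom hz₂) (ofList w)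
    (fun j hj => by rw [it_hom, it_hom, hw j hj]) i
  rw [it_hom, it_hom] at h
  exact ofList.injective h

theorem main_marked_right [Fintype α] {h₁ h₂ k₁ k₂ : α → List α} {z₁ z₂ : List α}
    (hz₁ : ∀ x, z₁ ++ h₁ x = k₁ x ++ z₁) (hz₂ : ∀ x, z₂ ++ h₂ x = k₂ x ++ z₂)
    (hn₁ : ∀ x, k₁ x ≠ []) (hn₂ : ∀ x, k₂ x ≠ [])
    (hm₁ : ∀ x y, (k₁ x).getLast? = (k₁ y).getLast? → x = y)
    (hm₂ : ∀ x y, x ≠ y → ¬ k₂ x <:+ k₂ y) (w : List α)
    (hw : ∀ i < 2 * Fintype.card α, (fun v : List α => v.flatMap h₁)^[i] w =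
      (fun v : List α => v.flatMap h₂)^[i] w) (i : ℕ) :
    (fun v : List α => v.flatMap h₁)^[i] w = (fun v : List α => v.flatMap h₂)^[i] w := by
  have h := main_marked_left (h₁ := fun x => (h₁ x).reverse) (h₂ := fun x => (h₂ x).reverse)
    (k₁ := fun x => (k₁ x).reverse) (k₂ := fun x => (k₂ x).reverse)
    (z₁ := z₁.reverse) (z₂ := z₂.reverse)
    (fun x => by rw [← List.reverse_append, hz₁, List.reverse_append])
    (fun x => by rw [← List.reverse_append, hz₂, List.reverse_append])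
    (fun x => by simpa using hn₁ x) (fun x => by simpa using hn₂ x)
    (fun x y hxy => hm₁ x y (by simpa using hxy))
    (fun x y hxy hp => hm₂ x y hxy (List.reverse_prefix.1 hp))
    w.reverse (fun j hj => by rw [← rev_iter, ← rev_iter, hw j hj]) i
  rw [← rev_iter, ← rev_iter] at h
  exact List.reverse_injective h

theorem main_prefix_right [Fintype α] {h₁ h₂ k₁ k₂ : α → List α} {z₁ z₂ : List α}
    (hz₁ : ∀ x, z₁ ++ h₁ x = k₁ x ++ z₁) (hz₂ : ∀ x, z₂ ++ h₂ x = k₂ x ++ z₂)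
    (hn₁ : ∀ x, k₁ x ≠ []) (hn₂ : ∀ x, k₂ x ≠ [])
    (hm₁ : ∀ x y, x ≠ y → ¬ k₁ x <:+ k₁ y)
    (hm₂ : ∀ x y, x ≠ y → ¬ k₂ x <:+ k₂ y) (w : List α)
    (hw : ∀ i ≤ Fintype.card α * (Fintype.card α + 1) / 2,
      (fun v : List α => v.flatMap h₁)^[i] w = (fun v : List α => v.flatMap h₂)^[i] w) (i : ℕ) :
    (fun v : List α => v.flatMap h₁)^[i] w = (fun v : List α => v.flatMap h₂)^[i] w := by
  have h := main_prefix_left (h₁ := fun x => (h₁ x).reverse) (h₂ := fun x => (h₂ x).reverse)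
    (k₁ := fun x => (k₁ x).reverse) (k₂ := fun x => (k₂ x).reverse)
    (z₁ := z₁.reverse) (z₂ := z₂.reverse)
    (fun x => by rw [← List.reverse_append, hz₁, List.reverse_append])
    (fun x => by rw [← List.reverse_append, hz₂, List.reverse_append])
    (fun x => by simpa using hn₁ x) (fun x => by simpa using hn₂ x)
    (fun x y hxy hp => hm₁ x y hxy (List.reverse_prefix.1 hp))
    (fun x y hxy hp => hm₂ x y hxy (List.reverse_prefix.1 hp))
    w.reverse (fun j hj => by rw [← rev_iter, ← rev_iter, hw j hj]) i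
  rw [← rev_iter, ← rev_iter] at h
  exact List.reverse_injective h

end Pool.Agent.Helper22.D0L
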