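import Pool.Agent.Helper22.D0L.Pot

/-!
# Conjugates of marked morphisms
-/

set_option autoImplicit false

namespace Pool.Agent.Helper22.D0L

open FreeMonoid

variable {α : Type*}

/-- the conjugating words of the iterates -/
def Zs (H : FreeMonoid α →* FreeMonoid α) (z : FreeMonoid α) : ℕ → FreeMonoid α
  | 0 => 1
  | i + 1 => H (Zs H z i) * z

theorem conj_it {H H' : FreeMonoid α →* FreeMonoid α} {z : FreeMonoid α}
    (hz : ∀ w, H w * z = z * H' w) (i : ℕ) (w : FreeMonoid α) :
    it H i w * Zs H z i = Zs H z i * it H' i w := by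
  induction i with
  | zero => change w * 1 = 1 * w; rw [mul_one, one_mul]
  | succ i ih =>
    change it H (i + 1) w * (H (Zs H z i) * z) = H (Zs H z i) * z * it H' (i + 1) w
    rw [it_succ', it_succ', ← mul_assoc, ← map_mul, ih, map_mul, mul_assoc, hz, mul_assoc]

/-- once nothing changes the sequence never changes -/
theorem shift {H G : FreeMonoid α →* FreeMonoid α} {t : ℕ}
    (h : ∀ w, MM (it H) (it G) t w → MM (it H) (it G) (t + 1) w) (i : ℕ) :
    ∀ w, MM (it H) (it G) t w → it H i w = it G i w := by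
  induction i with
  | zero => intro w _; rfl
  | succ i ih =>
    intro w hw
    have h1 := h w hw
    have h2 : H w = G w := h1 1 (by omega)
    have h3 : MM (it H) (it G) t (H w) := by
      intro j hj
      have h4 := h1 (j + 1) (by omega)
      rw [it_succ, it_succ, ← h2] at h4
      exact h4
    rw [it_succ, it_succ, ← h2]
    exact ih _ h3

/-- commuting words -/
theorem comm_step {A B : ℕ → (FreeMonoid α →* FreeMonoid α)} {t : ℕ}
    (hcomm : ∀ u v, MM A B t u → MM A B t v → u * v = v * u) {w : FreeMonoid α}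
    (hw : MM A B (t + 1) w) (hw1 : w ≠ 1) : ∀ u, MM A B t u → MM A B (t + 1) u := by
  intro u hu
  obtain ⟨c, i, j, h1, h2⟩ := comm_pow _ u w le_rfl (hcomm u w hu (hw.anti (Nat.le_add_right t 1)))
  have hj : 0 < j := by
    rcases Nat.eq_zero_or_pos j with h | h
    · exfalso; rw [h, pow_zero] at h2; exact hw1 h2
    · exact h
  rw [h2] at hw
  rw [h1]
  exact (hw.root hj).pow i

section main

variable {H G H' G' : FreeMonoid α →* FreeMonoid α} {z y : FreeMonoid α}

theorem rr_mul (hz : ∀ w, H w * z = z * H' w) (hy : ∀ w, G w * y = y * G' w) {t : ℕ}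
    {u p : FreeMonoid α} (hu : MM (it H) (it G) t u)
    (hp : RR (it H') (it G') (Zs H z) (Zs G y) t p) :
    RR (it H') (it G') (Zs H z) (Zs G y) t (u * p) := by
  intro i hi
  rw [map_mul, map_mul, ← mul_assoc, ← mul_assoc, ← conj_it hz, ← conj_it hy, hu i hi, mul_assoc,
    mul_assoc, hp i hi]

theorem rr_cancel (hz : ∀ w, H w * z = z * H' w) (hy : ∀ w, G w * y = y * G' w) {t : ℕ}
    {u p : FreeMonoid α} (hp : RR (it H') (it G') (Zs H z) (Zs G y) t p)
    (hup : RR (it H') (it G') (Zs H z) (Zs G y) t (u * p)) :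
    MM (it H) (it G) t u := by
  intro i hi
  have h := hup i hi
  rw [map_mul, map_mul, ← mul_assoc, ← mul_assoc, ← conj_it hz, ← conj_it hy, mul_assoc,
    mul_assoc, hp i hi] at h
  exact mul_right_cancel h

/-- stable case -/
theorem stable_step (hH : Mk H') (hG : Mk G') (hz : ∀ w, H w * z = z * H' w)
    (hy : ∀ w, G w * y = y * G' w) {t : ℕ}
    (hS : ∀ w, MM (it H') (it G') t w → MM (it H') (it G') (t + 1) w)
    (hR : ∃ p, RR (it H') (it G') (Zs H z) (Zs G y) (t + 1) p) {u : FreeMonoid α}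
    (hu : MM (it H) (it G) t u) : MM (it H) (it G) (t + 1) u := by
  obtain ⟨p, hp⟩ := hR
  have hp' := hp.anti (Nat.le_add_right t 1)
  obtain ⟨p₀, hp₀, hmin⟩ := shortest (fun i => hH.it i) (fun i => hG.it i) ⟨p, hp'⟩
  obtain ⟨m, rfl⟩ := hmin p hp'
  have hp₁ : RR (it H') (it G') (Zs H z) (Zs G y) (t + 1) p₀ := hp.of_mul (hS m (hp₀.quot hp'))
  have hq := rr_mul hz hy hu hp₀
  obtain ⟨m', hm'⟩ := hmin _ hq
  apply rr_cancel hz hy hp₁
  rw [hm'] at hq ⊢
  exact hp₁.mul (hS m' (hp₀.quot hq))

/-- the equality set is commutative if the reduced one is -/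
theorem comm_of_comm (hH : Mk H') (hG : Mk G') (hz : ∀ w, H w * z = z * H' w)
    (hy : ∀ w, G w * y = y * G' w) {t : ℕ}
    (hR : ∃ p, RR (it H') (it G') (Zs H z) (Zs G y) t p)
    (hcomm : ∀ u v, MM (it H') (it G') t u → MM (it H') (it G') t v → u * v = v * u) :
    ∀ u v, MM (it H) (it G) t u → MM (it H) (it G) t v → u * v = v * u := by
  intro u v hu hv
  obtain ⟨p, hp, hmin⟩ := shortest (fun i => hH.it i) (fun i => hG.it i) hR
  obtain ⟨m, hm⟩ := hmin _ (rr_mul hz hy hu hp)
  obtain ⟨m', hm'⟩ := hmin _ (rr_mul hz hy hv hp)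
  have h1 : MM (it H') (it G') t m := hp.quot (by rw [← hm]; exact rr_mul hz hy hu hp)
  have h2 : MM (it H') (it G') t m' := hp.quot (by rw [← hm']; exact rr_mul hz hy hv hp)
  have h3 := hcomm m m' h1 h2
  apply mul_right_cancel (b := p)
  calc u * v * p = u * (v * p) := mul_assoc _ _ _
    _ = (u * p) * m' := by rw [hm', mul_assoc]
    _ = p * (m * m') := by rw [hm, mul_assoc]
    _ = p * (m' * m) := by rw [h3]
    _ = (v * p) * m := by rw [hm', mul_assoc]
    _ = v * (u * p) := by rw [hm, mul_assoc]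
    _ = v * u * p := (mul_assoc _ _ _).symm

/-- the conjugating word is a prefix of a power -/
theorem Zs_dvd (hH : Mk H') (hz : ∀ w, H w * z = z * H' w) (i : ℕ) {u : FreeMonoid α}
    (hu : u ≠ 1) (K : ℕ) (hK : (Zs H z i).length ≤ K) : Zs H z i ∣ (it H i u) ^ K := by
  have h1 := conj_it hz i (u ^ K)
  rw [map_pow] at h1
  have hlen : K ≤ ((it H i u) ^ K).length := by
    rw [length_pow]
    have h2 := congrArg length (conj_it hz i u)
    rw [length_mul, length_mul] at h2
    have h3 := (hH.it i).len u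
    have h4 : 0 < u.length := by
      rcases Nat.eq_zero_or_pos u.length with h | h
      · exact absurd (length_eq_zero.1 h) hu
      · exact h
    have h5 : 1 ≤ (it H i u).length := by omega
    nlinarith
  rcases cmp_of_mul h1 with h | h
  · have := len_le_of_dvd h
    rw [eq_of_dvd_len h (by omega)]
  · exact h

theorem cc_of_L (hH : Mk H') (hG : Mk G') (hz : ∀ w, H w * z = z * H' w)
    (hy : ∀ w, G w * y = y * G' w) {t : ℕ} {u v : FreeMonoid α} (hu1 : u ≠ 1)
    (hu : MM (it H) (it G) t u) (hv : MM (it H) (it G) t v) :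
    CC (it H') (it G') (Zs H z) (Zs G y) t v := by
  intro i hi
  rw [← conj_it hz, ← conj_it hy, ← hv i hi]
  set K := max (Zs H z i).length (Zs G y i).length with hK
  have h1 := Zs_dvd hH hz i hu1 K (le_max_left _ _)
  have h2 := Zs_dvd hG hy i hu1 K (le_max_right _ _)
  rw [← hu i hi] at h2
  rcases cmp_prefix (Or.inl (dvd_refl _)) h1 h2 with ⟨c, hc⟩ | ⟨c, hc⟩
  · left; exact ⟨c, by rw [hc, mul_assoc]⟩
  · right; exact ⟨c, by rw [hc, mul_assoc]⟩

/-- without words with empty offset the equality set is commutative -/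
theorem comm_of_empty (hH : Mk H') (hG : Mk G') (hz : ∀ w, H w * z = z * H' w)
    (hy : ∀ w, G w * y = y * G' w) {t : ℕ}
    (hR : ¬ ∃ p, RR (it H') (it G') (Zs H z) (Zs G y) t p) :
    ∀ u v, MM (it H) (it G) t u → MM (it H) (it G) t v → u * v = v * u := by
  intro u v hu hv
  by_cases hu1 : u = 1
  · rw [hu1, one_mul, mul_one]
  have h1 := cc_of_L hH hG hz hy hu1 hu (hu.mul hv)
  have h2 := cc_of_L hH hG hz hy hu1 hu (hv.mul hu)
  rcases branch (fun i => hH.it i) (fun i => hG.it i) h1 h2 with h | ⟨p, hp, -⟩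
  · apply h.eq_of_len
    rw [length_mul, length_mul, add_comm]
  · exact absurd ⟨p, hp⟩ hR

variable [Fintype α]

/-- the main theorem: agreement up to index `2 n - 1` implies agreement -/
theorem main (hH : Mk H') (hG : Mk G') (hz : ∀ w, H w * z = z * H' w)
    (hy : ∀ w, G w * y = y * G' w) (w : FreeMonoid α)
    (hw : ∀ i < 2 * Fintype.card α, it H i w = it G i w) (i : ℕ) : it H i w = it G i w := by
  classical
  by_cases hw1 : w = 1
  · rw [hw1, map_one, map_one]
  have hn : 1 ≤ Fintype.card α := by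
    obtain ⟨a, -, -⟩ := exists_head hw1
    exact Fintype.card_pos_iff.2 ⟨a⟩
  set T := 2 * Fintype.card α - 2 with hT
  have hwT : MM (it H) (it G) (T + 1) w := fun j hj => hw j (by omega)
  have hwT' := hwT.anti (Nat.le_add_right T 1)
  by_cases hR : ∃ p, RR (it H') (it G') (Zs H z) (Zs G y) T p
  · by_cases hS : ∃ s < T, ∀ w, MM (it H') (it G') s w → MM (it H') (it G') (s + 1) w
    · obtain ⟨s, hsT, hs⟩ := hS
      obtain ⟨p, hp⟩ := hR
      refine shift (t := s) (fun u hu => ?_) i w (hwT'.anti hsT.le)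
      exact stable_step hH hG hz hy hs ⟨p, hp.anti hsT⟩ hu
    · push Not at hS
      have hpot := pot_chain (A := it H') (B := it G') (fun i => hH.it i) (fun i => hG.it i)
        (t := T) (fun s hs => by
          obtain ⟨u, h1, h2⟩ := hS s hs
          intro h3
          exact h2 (h3 u h1))
      have hpot2 : pot (it H') (it G') T ≤ 2 := by omega
      refine shift (t := T) ?_ i w hwT'
      apply comm_step _ hwT hw1
      apply comm_of_comm hH hG hz hy hR
      intro u v hu hv
      exact comm_of_pot (fun i => hH.it i) (fun i => hG.it i) hpot2 hu hv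
  · refine shift (t := T) ?_ i w hwT'
    apply comm_step _ hwT hw1
    exact comm_of_empty hH hG hz hy hR

end main

end Pool.Agent.Helper22.D0L
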