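import Pool.Agent.Helper22.D0L.Star

/-!
# Bounds for conjugates of prefix morphisms
-/

set_option autoImplicit false

namespace Pool.Agent.Helper22.D0L

open FreeMonoid

theorem it_add {α : Type*} (H : FreeMonoid α →* FreeMonoid α) (i k : ℕ) (w : FreeMonoid α) :
    it H (i + k) w = it H k (it H i w) := by
  induction i generalizing w with
  | zero => rw [zero_add]; rfl
  | succ i ih => rw [Nat.succ_add, it_succ, ih, it_succ]

/-- the node at level `t` determines the nodes at lower levels -/
theorem nodes_eq {α : Type*} {G : FreeMonoid α →* FreeMonoid α} (hG : Pc G) {i t : ℕ}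
    (hi : i ≤ t) {x y x' y' : α} {d d₁ d₂ : FreeMonoid α}
    (h1 : Fork (it G t (of x)) (it G t (of y)) d) (h2 : Fork (it G t (of x')) (it G t (of y')) d)
    (h3 : Fork (it G i (of x)) (it G i (of y)) d₁)
    (h4 : Fork (it G i (of x')) (it G i (of y')) d₂) : d₁ = d₂ := by
  obtain ⟨k, rfl⟩ : ∃ k, t = i + k := ⟨t - i, by omega⟩
  have key : ∀ {a b : α} {e : FreeMonoid α}, Fork (it G (i + k) (of a)) (it G (i + k) (of b)) d →
      Fork (it G i (of a)) (it G i (of b)) e → ∃ (f r : FreeMonoid α) (c : α),
        d = it G k e * f ∧ it G k (of c) = f * r ∧ r ≠ 1 := by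
    intro a b e g1 g2
    obtain ⟨κ, κ', r, r', hκ, e1, e2⟩ := g2
    obtain ⟨f, l, l', s, s', hl, e3, e4⟩ := exists_fork ((hG.it k).2 κ κ' hκ)
    refine ⟨f, of l * s, κ, ?_, e3, ?_⟩
    · refine g1.uniq ⟨l, l', s * it G k r, s' * it G k r', hl, ?_, ?_⟩
      · rw [it_add, e1, map_mul, map_mul, e3]; simp only [mul_assoc]
      · rw [it_add, e2, map_mul, map_mul, e4]; simp only [mul_assoc]
    · intro h0
      have := congrArg length h0
      rw [length_mul, length_of, length_one] at this
      omega
  obtain ⟨f, r, c, g1, g2, g3⟩ := key h1 h3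
  obtain ⟨f', r', c', g1', g2', g3'⟩ := key h2 h4
  exact (hG.it k).decode (g1.symm.trans g1') g2 g3 g2' g3'

variable {α : Type*} {H G H' G' : FreeMonoid α →* FreeMonoid α} {z y : FreeMonoid α}

/-- abstract counting argument -/
theorem conclude {K : ℕ} {pot : ℕ → ℕ} (h0 : pot 0 ≤ K)
    (hstep : ∀ t, (∃ w₀ : FreeMonoid α, w₀ ≠ 1 ∧ MM (it H) (it G) (t + 1) w₀) →
      (¬ ∀ w, MM (it H) (it G) t w → MM (it H) (it G) (t + 1) w) → pot (t + 1) + 1 ≤ pot t)
    (hpos : ∀ t, (∃ w₀ : FreeMonoid α, w₀ ≠ 1 ∧ MM (it H) (it G) t w₀) → 1 ≤ pot t)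
    (w : FreeMonoid α) (hw : MM (it H) (it G) K w) (i : ℕ) : it H i w = it G i w := by
  by_cases hw1 : w = 1
  · rw [hw1, map_one, map_one]
  by_cases hS : ∃ t < K, ∀ w, MM (it H) (it G) t w → MM (it H) (it G) (t + 1) w
  · obtain ⟨t, ht, hS⟩ := hS
    exact shift hS i w (hw.anti ht.le)
  · exfalso
    have key : ∀ t ≤ K, pot t + t ≤ K := by
      intro t
      induction t with
      | zero => intro _; rw [add_zero]; exact h0
      | succ t ih =>
        intro ht
        have h1 := ih (by omega)
        have h2 := hstep t ⟨w, hw1, hw.anti ht⟩ (fun h => hS ⟨t, by omega, h⟩)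
        omega
    have h1 := key K le_rfl
    have h2 := hpos K ⟨w, hw1, hw⟩
    omega

section potentials

variable [Fintype α] [DecidableEq α]

theorem bal_of_V (t : ℕ) (hV : V (it H) (it G) (t + 1) = V (it H) (it G) t)
    (w : FreeMonoid α) (hw : MM (it H) (it G) t w) :
    (it H (t + 1) w).length = (it G (t + 1) w).length := by
  have hle : V (it H) (it G) (t + 1) ≤
      LinearMap.ker (lenF (it H (t + 1)) - lenF (it G (t + 1))) := by
    unfold V
    rw [Submodule.span_le]
    rintro _ ⟨u, hu, rfl⟩
    rw [SetLike.mem_coe, LinearMap.mem_ker, LinearMap.sub_apply, lenF_parikh, lenF_parikh,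
      hu (t + 1) le_rfl, sub_self]
  have h3 := hle (by rw [hV]; exact mem_V hw)
  rw [LinearMap.mem_ker, LinearMap.sub_apply, lenF_parikh, lenF_parikh, sub_eq_zero] at h3
  exact_mod_cast h3

theorem V_pos {t : ℕ} (hne : ∃ w₀ : FreeMonoid α, w₀ ≠ 1 ∧ MM (it H) (it G) t w₀) :
    1 ≤ Module.finrank ℚ (V (it H) (it G) t) := by
  obtain ⟨w, hw1, hw⟩ := hne
  obtain ⟨a, u, rfl⟩ := exists_head hw1
  apply Nat.succ_le_of_lt
  rw [Module.finrank_pos_iff_exists_ne_zero]
  refine ⟨⟨parikh (of a * u), mem_V hw⟩, ?_⟩
  intro h0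
  have h3 : parikh (of a * u) = 0 := congrArg Subtype.val h0
  have h4 := congrFun h3 a
  rw [parikh_mul, parikh_of, Pi.add_apply, Pi.single_eq_same, Pi.zero_apply] at h4
  have h5 : (0 : ℚ) ≤ parikh u a := by unfold parikh; positivity
  linarith

theorem V_le (t : ℕ) : Module.finrank ℚ (V (it H) (it G) t) ≤ Fintype.card α := by
  have := Submodule.finrank_le (V (it H) (it G) t)
  rwa [Module.finrank_fintype_fun_eq_card] at this

open Classical in
/-- the branching pairs -/
noncomputable def EE (H G : FreeMonoid α →* FreeMonoid α) (t : ℕ) : Finset (α × α) :=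
  Finset.univ.filter fun q => PP H G t q.1 q.2

omit [DecidableEq α] in
theorem mem_EE {t : ℕ} {q : α × α} : q ∈ EE H G t ↔ PP H G t q.1 q.2 := by
  classical
  unfold EE
  rw [Finset.mem_filter]
  exact ⟨fun h => h.2, fun h => ⟨Finset.mem_univ _, h⟩⟩

theorem EE_card (t : ℕ) : (EE H G t).card + Fintype.card α ≤ Fintype.card α * Fintype.card α := by
  have h1 : EE H G t ⊆ (Finset.univ : Finset α).offDiag := by
    intro q hq
    rw [Finset.mem_offDiag]
    exact ⟨Finset.mem_univ _, Finset.mem_univ _, (mem_EE.1 hq).1⟩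
  have h2 := Finset.card_le_card h1
  rw [Finset.offDiag_card, Finset.card_univ] at h2
  have h3 : Fintype.card α ≤ Fintype.card α * Fintype.card α := Nat.le_mul_self _
  omega

omit [DecidableEq α] in
theorem EE_step {t : ℕ} (h : ¬ ∀ a b, PP H G t a b → PP H G (t + 1) a b) :
    (EE H G (t + 1)).card + 2 ≤ (EE H G t).card := by
  classical
  push Not at h
  obtain ⟨a, b, h1, h2⟩ := h
  have hab := h1.1
  have hsub : insert (a, b) (insert (b, a) (EE H G (t + 1))) ⊆ EE H G t := by
    intro q hq
    rw [Finset.mem_insert, Finset.mem_insert] at hq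
    rcases hq with rfl | rfl | hq
    · exact mem_EE.2 h1
    · exact mem_EE.2 h1.symm
    · exact mem_EE.2 ((mem_EE.1 hq).anti (Nat.le_add_right t 1))
  have h3 := Finset.card_le_card hsub
  rw [Finset.card_insert_of_notMem, Finset.card_insert_of_notMem] at h3
  · omega
  · intro hm
    exact h2 (mem_EE.1 hm).symm
  · intro hm
    rw [Finset.mem_insert] at hm
    rcases hm with hm | hm
    · exact hab (congrArg Prod.fst hm)
    · exact h2 (mem_EE.1 hm)

/-- the quadratic bound for conjugates of prefix morphisms -/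
theorem main_prefix (hH : Pc H') (hG : Pc G') (hz : ∀ w, H w * z = z * H' w)
    (hy : ∀ w, G w * y = y * G' w) (w : FreeMonoid α)
    (hw : ∀ i ≤ Fintype.card α * (Fintype.card α + 1) / 2, it H i w = it G i w) (i : ℕ) :
    it H i w = it G i w := by
  set n := Fintype.card α with hn
  apply conclude (K := n * (n + 1) / 2)
    (pot := fun t => ((EE H G t).card + 2 * Module.finrank ℚ (V (it H) (it G) t)) / 2) _ _ _ w hw i
  · have h1 := EE_card (H := H) (G := G) 0
    have h2 := V_le (H := H) (G := G) 0
    rw [← hn] at h1 h2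
    apply Nat.div_le_div_right
    rw [mul_add, mul_one]
    omega
  · intro t hne hS
    have hV := V_anti (A := it H) (B := it G) (Nat.le_add_right t 1)
    have hV2 := Submodule.finrank_mono hV
    have hE : (EE H G (t + 1)).card ≤ (EE H G t).card :=
      Finset.card_le_card fun q hq => mem_EE.2 ((mem_EE.1 hq).anti (Nat.le_add_right t 1))
    have hor : (EE H G (t + 1)).card + 2 ≤ (EE H G t).card ∨
        Module.finrank ℚ (V (it H) (it G) (t + 1)) + 1 ≤
          Module.finrank ℚ (V (it H) (it G) t) := by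
      by_contra hc
      push Not at hc
      obtain ⟨c1, c2⟩ := hc
      have hVeq : V (it H) (it G) (t + 1) = V (it H) (it G) t :=
        Submodule.eq_of_le_of_finrank_le hV (by omega)
      apply hS
      refine claimA hH hG hz hy (bal_of_V t hVeq) ?_ hne
      by_contra hP
      have := EE_step hP
      omega
    omega
  · intro t hne
    have := V_pos hne
    omega

/-- the node function at a given level -/
noncomputable def node (G : FreeMonoid α →* FreeMonoid α) (t : ℕ) (a b : α) : FreeMonoid α := by
  classical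
  exact if h : ∃ c, Fork (it G t (of a)) (it G t (of b)) c then h.choose else 1

omit [Fintype α] [DecidableEq α] in
theorem node_spec {G : FreeMonoid α →* FreeMonoid α} (hG : Pc G) (t : ℕ) {a b : α} (hab : a ≠ b) :
    Fork (it G t (of a)) (it G t (of b)) (node G t a b) := by
  have h := exists_fork ((hG.it t).2 a b hab)
  unfold node
  rw [dif_pos h]
  exact h.choose_spec

/-- the linear bound if one of the morphisms is conjugate to a marked one -/
theorem main_marked (hH : Mk H') (hG : Pc G') (hz : ∀ w, H w * z = z * H' w)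
    (hy : ∀ w, G w * y = y * G' w) (w : FreeMonoid α)
    (hw : ∀ i < 2 * Fintype.card α, it H i w = it G i w) (i : ℕ) :
    it H i w = it G i w := by
  classical
  by_cases hw1 : w = 1
  · rw [hw1, map_one, map_one]
  have hne' : Nonempty α := by
    obtain ⟨a, -, -⟩ := exists_head hw1
    exact ⟨a⟩
  have hcard : 1 ≤ Fintype.card α := Fintype.card_pos_iff.2 hne'
  apply conclude (K := 2 * Fintype.card α - 1)
    (pot := fun t => Module.finrank ℚ (DD (PP H G t)) + Module.finrank ℚ (V (it H) (it G) t))
    _ _ _ w (fun j hj => hw j (by omega)) i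
  · have h1 := DD_finrank (PP H G 0)
    have h2 := V_le (H := H) (G := G) 0
    change Module.finrank ℚ (DD (PP H G 0)) + Module.finrank ℚ (V (it H) (it G) 0) ≤ _
    omega
  · intro t hne hS
    have hle := Nat.le_add_right t 1
    have hV := V_anti (A := it H) (B := it G) hle
    have hV2 := Submodule.finrank_mono hV
    have hD : DD (PP H G (t + 1)) ≤ DD (PP H G t) := DD_mono fun a b h => h.anti hle
    have hD2 := Submodule.finrank_mono hD
    by_contra hc
    change ¬ Module.finrank ℚ (DD (PP H G (t + 1))) + Module.finrank ℚ (V (it H) (it G) (t + 1)) + 1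
      ≤ Module.finrank ℚ (DD (PP H G t)) + Module.finrank ℚ (V (it H) (it G) t) at hc
    have hVeq : V (it H) (it G) (t + 1) = V (it H) (it G) t :=
      Submodule.eq_of_le_of_finrank_le hV (by omega)
    have hDeq : DD (PP H G (t + 1)) = DD (PP H G t) :=
      Submodule.eq_of_le_of_finrank_le hD (by omega)
    have hbal := bal_of_V t hVeq
    apply hS
    refine claimA hH.pc hG hz hy hbal ?_ hne
    -- continuation of one path along the other one
    have hcont : ∀ {s : ℕ} {p q u r : FreeMonoid α} {a b a' b' c : α},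
        (∀ j ≤ s, ∃ d, Zs H z j * it H' j p * 1 = Zs G y j * it G' j p * d ∧
          Zs H z j * it H' j q * 1 = Zs G y j * it G' j q * d ∧
          ∃ e, it G' j (of c) = d * e) →
        MM (it H) (it G) s (p * (of c * u)) → MM (it H) (it G) s (q * (of c * u)) := by
      intro s p q u r a b a' b' c h1 h2
      refine cont hz hy (q := p) (fun j hj => ?_) h2
      obtain ⟨d, e1, e2, e, e3⟩ := h1 j hj
      exact ⟨1, d, ⟨_, (one_mul _).symm⟩, ⟨e * it G' j u, by rw [map_mul, e3, mul_assoc]⟩, e2, e1⟩
    have hst : ∀ {s : ℕ} {p u v : FreeMonoid α} {a b : α}, a ≠ b →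
        MM (it H) (it G) s (p * (of a * u)) → MM (it H) (it G) s (p * (of b * v)) →
        ∀ j ≤ s, Zs H z j * it H' j p * 1 = Zs G y j * it G' j p * node G' j a b :=
      fun hab h1 h2 j hj =>
        state hH.pc hG hz hy h1 h2 hj ((hH.it j).fork hab) (node_spec hG j hab)
    intro a b hab
    refine star (P := PP H G t) (Q := PP H G (t + 1)) (fun c => it G' t (of c)) (node G' t)
      (fun _ _ h => h.symm) (fun u v h => node_spec hG t h.1) ?_ (fun u v h => h.anti hle)
      (fun _ _ h => h.symm) ?_ hab ?_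
    · -- clique property
      rintro u v u' v' ⟨huv, p, ⟨r1, h1⟩, ⟨r2, h2⟩⟩ ⟨huv', q, ⟨r3, h3⟩, ⟨r4, h4⟩⟩ hN huu
      have h5 : MM (it H) (it G) t (q * (of u * r1)) := by
        refine hcont (p := p) (r := 1) (a := u) (b := u) (a' := u) (b' := u) (fun j hj => ?_) h1
        have e1 := hst huv h1 h2 j hj
        have e2 := hst huv' h3 h4 j hj
        have e3 : node G' j u v = node G' j u' v' :=
          nodes_eq hG hj (node_spec hG t huv) (by rw [hN]; exact node_spec hG t huv')
            (node_spec hG j huv) (node_spec hG j huv')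
        exact ⟨node G' j u v, e1, by rw [e3]; exact e2, (dvd_of_fork (node_spec hG j huv)).1⟩
      refine ⟨⟨huu, q, ⟨r1, h5⟩, ⟨r3, h3⟩⟩, ?_⟩
      have e1 := hst huu h5 h3 t le_rfl
      have e2 := hst huv' h3 h4 t le_rfl
      rw [hN]
      exact mul_left_cancel (e1.symm.trans e2)
    · -- transitivity
      rintro u s v ⟨hus, p, ⟨r1, h1⟩, ⟨r2, h2⟩⟩ ⟨hsv, q, ⟨r3, h3⟩, ⟨r4, h4⟩⟩ huv hN
      have hj : ∀ j ≤ t, node G' j u s = node G' j s v := fun j hj =>
        nodes_eq hG hj (node_spec hG t hus) (by rw [hN]; exact node_spec hG t hsv)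
          (node_spec hG j hus) (node_spec hG j hsv)
      have h5 : MM (it H) (it G) t (q * (of s * r2)) := by
        refine hcont (p := p) (r := 1) (a := u) (b := u) (a' := u) (b' := u) (fun j hj' => ?_)
          (h2.anti hle)
        have e1 := hst hus h1 h2 j (hj'.trans hle)
        have e2 := hst hsv h3 h4 j (hj'.trans hle)
        exact ⟨node G' j u s, e1, by rw [hj j hj']; exact e2,
          (dvd_of_fork (node_spec hG j hus)).2⟩
      have hnode : node G' (t + 1) u s = node G' (t + 1) s v := by
        have e1 := hst hus h1 h2 (t + 1) le_rfl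
        have e2 := hst hsv h3 h4 (t + 1) le_rfl
        have l1 := hbal _ (h2.anti hle)
        have l2 := hbal _ h5
        rw [len_conj hz, len_conj hy, map_mul _ p, map_mul _ p, length_mul, length_mul] at l1
        rw [len_conj hz, len_conj hy, map_mul _ q, map_mul _ q, length_mul, length_mul] at l2
        have l3 := congrArg length e1
        have l4 := congrArg length e2
        simp only [length_mul, length_one] at l3 l4
        obtain ⟨f, hf⟩ := (dvd_of_fork (node_spec hG (t + 1) hus)).2
        obtain ⟨f', hf'⟩ := (dvd_of_fork (node_spec hG (t + 1) hsv)).1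
        exact eq_of_mul_len (hf.symm.trans hf') (by omega)
      refine ⟨huv, q, ⟨r1, ?_⟩, ⟨r4, h4⟩⟩
      refine hcont (p := p) (r := 1) (a := u) (b := u) (a' := u) (b' := u) (fun j hj' => ?_) h1
      have e1 := hst hus h1 h2 j hj'
      have e2 := hst hsv h3 h4 j hj'
      have e3 : node G' j u s = node G' j s v := by
        rcases Nat.lt_or_ge j (t + 1) with h | h
        · exact hj j (by omega)
        · have : j = t + 1 := by omega
          rw [this]; exact hnode
      exact ⟨node G' j u s, e1, by rw [e3]; exact e2, (dvd_of_fork (node_spec hG j hus)).1⟩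
    · rw [hDeq]
      exact mem_DD hab
  · intro t hne
    have := V_pos hne
    change 1 ≤ Module.finrank ℚ (DD (PP H G t)) + Module.finrank ℚ (V (it H) (it G) t)
    omega

end potentials

end Pool.Agent.Helper22.D0L
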