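import Pool.Agent.Helper22.D0L.Main

/-!
# Prefix morphisms
-/

set_option autoImplicit false

namespace Pool.Agent.Helper22.D0L

open FreeMonoid

variable {α : Type*}

/-- the images of the letters are nonempty and form a code without comparable words -/
def Pc (A : FreeMonoid α →* FreeMonoid α) : Prop :=
  (∀ x, A (of x) ≠ 1) ∧ ∀ x y, x ≠ y → ¬ Cmp (A (of x)) (A (of y))

/-- the words `u` and `v` branch exactly after `c` -/
def Fork (u v c : FreeMonoid α) : Prop :=
  ∃ (k k' : α) (r r' : FreeMonoid α), k ≠ k' ∧ u = c * (of k * r) ∧ v = c * (of k' * r')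

theorem Fork.symm {u v c : FreeMonoid α} (h : Fork u v c) : Fork v u c := by
  obtain ⟨k, k', r, r', h1, h2, h3⟩ := h
  exact ⟨k', k, r', r, h1.symm, h3, h2⟩

theorem fork_unique {a b r r' s s' : FreeMonoid α} {k k' l l' : α}
    (h1 : a * (of k * r) = b * (of l * s)) (h2 : a * (of k' * r') = b * (of l' * s'))
    (hk : k ≠ k') (hl : l ≠ l') : a = b := by
  rcases cmp_of_mul h1 with ⟨e, he⟩ | ⟨e, he⟩
  · by_cases he1 : e = 1
    · rw [he, he1, mul_one]
    · exfalso
      obtain ⟨m, e', rfl⟩ := exists_head he1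
      rw [he, mul_assoc, mul_assoc] at h1 h2
      have h3 := (of_mul_inj (mul_left_cancel h1)).1
      have h4 := (of_mul_inj (mul_left_cancel h2)).1
      exact hk (h3.trans h4.symm)
  · by_cases he1 : e = 1
    · rw [he, he1, mul_one]
    · exfalso
      obtain ⟨m, e', rfl⟩ := exists_head he1
      rw [he, mul_assoc, mul_assoc] at h1 h2
      have h3 := (of_mul_inj (mul_left_cancel h1)).1
      have h4 := (of_mul_inj (mul_left_cancel h2)).1
      exact hl (h3.symm.trans h4)

theorem Fork.uniq {u v c d : FreeMonoid α} (h : Fork u v c) (h' : Fork u v d) : c = d := by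
  obtain ⟨k, k', r, r', h1, h2, h3⟩ := h
  obtain ⟨l, l', s, s', g1, g2, g3⟩ := h'
  exact fork_unique (h2.symm.trans g2) (h3.symm.trans g3) h1 g1

theorem exists_fork {u v : FreeMonoid α} (h : ¬ Cmp u v) : ∃ c, Fork u v c := by
  obtain ⟨p, u', v', hu, hv, h1 | h1 | ⟨x, x', u'', v'', hxx, h1, h2⟩⟩ := lcp u v
  · exfalso; apply h; left; exact ⟨v', by rw [hu, h1, mul_one, hv]⟩
  · exfalso; apply h; right; exact ⟨u', by rw [hv, h1, mul_one, hu]⟩
  · exact ⟨p, x, x', u'', v'', hxx, by rw [hu, h1], by rw [hv, h2]⟩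

theorem cmp_left_cancel {a u v : FreeMonoid α} (h : Cmp (a * u) (a * v)) : Cmp u v := by
  rcases h with ⟨c, hc⟩ | ⟨c, hc⟩
  · left; exact ⟨c, by rw [mul_assoc] at hc; exact mul_left_cancel hc⟩
  · right; exact ⟨c, by rw [mul_assoc] at hc; exact mul_left_cancel hc⟩

theorem Pc.len {A : FreeMonoid α →* FreeMonoid α} (h : Pc A) (w : FreeMonoid α) :
    w.length ≤ (A w).length := by
  induction w using FreeMonoid.recOn with
  | one => rw [map_one]
  | of_mul x xs ih =>
    have h1 : (A (of x)).length ≠ 0 := fun h0 => h.1 x (length_eq_zero.1 h0)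
    rw [map_mul, length_mul, length_mul, length_of]
    omega

theorem Mk.pc {A : FreeMonoid α →* FreeMonoid α} (h : Mk A) : Pc A := by
  obtain ⟨φ, h1, h2⟩ := h
  refine ⟨?_, ?_⟩
  · intro x h0
    obtain ⟨w, hw⟩ := h2 x
    rw [hw] at h0
    have := congrArg length h0
    rw [length_mul, length_of, length_one] at this
    omega
  · intro x y hxy hc
    obtain ⟨w, hw⟩ := h2 x
    obtain ⟨v, hv⟩ := h2 y
    rw [hw, hv] at hc
    have := cmp_head (a := 1) (x := φ x) (y := φ y) (u := w) (v := v)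
      (by rw [one_mul, one_mul]; exact hc)
    exact hxy (h1 this)

theorem Mk.fork {A : FreeMonoid α →* FreeMonoid α} (h : Mk A) {x y : α} (hxy : x ≠ y) :
    Fork (A (of x)) (A (of y)) 1 := by
  obtain ⟨φ, h1, h2⟩ := h
  obtain ⟨w, hw⟩ := h2 x
  obtain ⟨v, hv⟩ := h2 y
  exact ⟨φ x, φ y, w, v, fun h0 => hxy (h1 h0), by rw [hw, one_mul], by rw [hv, one_mul]⟩

/-- decoding with a prefix morphism -/
theorem Pc.decode {A : FreeMonoid α →* FreeMonoid α} (h : Pc A) {u v e e' r r' : FreeMonoid α}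
    {x x' : α} (huv : A u * e = A v * e') (he : A (of x) = e * r) (hr : r ≠ 1)
    (he' : A (of x') = e' * r') (hr' : r' ≠ 1) : u = v := by
  obtain ⟨p, u', v', hu, hv, hcase⟩ := lcp u v
  have h1 : A u' * e = A v' * e' := by
    rw [hu, hv, map_mul, map_mul, mul_assoc, mul_assoc] at huv
    exact mul_left_cancel huv
  -- an image of a letter is not a prefix of a proper prefix of the image of a letter
  have key : ∀ (b y : α) (w f g s : FreeMonoid α), A (of b) * w = f → A (of y) = f * s → s ≠ 1 →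
      False := by
    intro b y w f g s h2 h3 h4
    rw [← h2, mul_assoc] at h3
    by_cases hby : b = y
    · subst hby
      have h5 := congrArg length h3
      rw [length_mul, length_mul] at h5
      have : s.length = 0 := by omega
      exact h4 (length_eq_zero.1 this)
    · exact h.2 b y hby (Or.inl ⟨_, h3⟩)
  rcases hcase with h2 | h2 | ⟨a, b, u'', v'', hab, h2, h3⟩
  · by_cases hv1 : v' = 1
    · rw [hu, hv, h2, hv1]
    · exfalso
      obtain ⟨b, v'', rfl⟩ := exists_head hv1
      rw [h2, map_one, one_mul, map_mul, mul_assoc] at h1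
      exact key b x _ e 1 r h1.symm he hr
  · by_cases hu1 : u' = 1
    · rw [hu, hv, h2, hu1]
    · exfalso
      obtain ⟨b, u'', rfl⟩ := exists_head hu1
      rw [h2, map_one, one_mul, map_mul, mul_assoc] at h1
      exact key b x' _ e' 1 r' h1 he' hr'
  · exfalso
    rw [h2, h3, map_mul, map_mul, mul_assoc, mul_assoc] at h1
    exact h.2 a b hab (cmp_of_mul h1)

theorem Pc.it {H : FreeMonoid α →* FreeMonoid α} (h : Pc H) (k : ℕ) : Pc (it H k) := by
  induction k with
  | zero =>
    refine ⟨fun x => of_ne_one x, ?_⟩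
    intro x y hxy hc
    have := cmp_head (a := 1) (u := 1) (v := 1) (x := x) (y := y) (by
      rw [one_mul, one_mul, mul_one, mul_one]; exact hc)
    exact hxy this
  | succ k ih =>
    refine ⟨?_, ?_⟩
    · intro x h0
      rw [it_succ] at h0
      have h1 := ih.len (H (of x))
      rw [h0, length_one] at h1
      exact h.1 x (length_eq_zero.1 (by omega))
    · intro x y hxy hc
      obtain ⟨c, κ, κ', r, r', h1, h2, h3⟩ := exists_fork (h.2 x y hxy)
      rw [it_succ, it_succ, h2, h3, map_mul _ c, map_mul _ c] at hc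
      have h4 := cmp_left_cancel hc
      refine ih.2 κ κ' h1 (cmp_prefix h4 ⟨D0L.it H k r, ?_⟩ ⟨D0L.it H k r', ?_⟩)
      · rw [map_mul]
      · rw [map_mul]

/-- the offset at a branching is determined -/
theorem fork_state {A B : FreeMonoid α →* FreeMonoid α} {Z Y p c d : FreeMonoid α} {x y : α}
    (hx : Cmp (Z * A (p * of x)) (Y * B (p * of x)))
    (hy : Cmp (Z * A (p * of y)) (Y * B (p * of y)))
    (hc : Fork (A (of x)) (A (of y)) c) (hd : Fork (B (of x)) (B (of y)) d) :
    Z * A p * c = Y * B p * d := by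
  obtain ⟨k, k', r, r', h1, h2, h3⟩ := hc
  obtain ⟨l, l', s, s', g1, g2, g3⟩ := hd
  have ext : ∀ u v : FreeMonoid α, Cmp u v → ∃ e f, u * e = v * f := by
    rintro u v (⟨c, hc⟩ | ⟨c, hc⟩)
    · exact ⟨c, 1, by rw [mul_one, hc]⟩
    · exact ⟨1, c, by rw [mul_one, hc]⟩
  obtain ⟨e, f, h4⟩ := ext _ _ hx
  obtain ⟨e', f', h5⟩ := ext _ _ hy
  rw [map_mul, map_mul, h2, g2] at h4
  rw [map_mul, map_mul, h3, g3] at h5
  have h4' : Z * A p * c * (of k * (r * e)) = Y * B p * d * (of l * (s * f)) := by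
    simpa only [mul_assoc] using h4
  have h5' : Z * A p * c * (of k' * (r' * e')) = Y * B p * d * (of l' * (s' * f')) := by
    simpa only [mul_assoc] using h5
  exact fork_unique h4' h5' h1 g1

/-- transfer of equalities -/
theorem transfer {e f s s' Z Y k k₁ k₂ : FreeMonoid α} (h1 : k * Z = e * s) (h2 : k * Y = e * s')
    (h3 : k₁ * Z = f * s) (h4 : k₂ * Y = f * s') : k₁ = k₂ := by
  rcases cmp_of_mul h1 with ⟨e', he⟩ | ⟨k', hk⟩
  · rw [he, mul_assoc] at h1 h2
    rw [mul_left_cancel h1, ← mul_assoc] at h3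
    rw [mul_left_cancel h2, ← mul_assoc] at h4
    have h5 := mul_right_cancel h3
    have h6 := mul_right_cancel h4
    exact mul_right_cancel (h5.trans h6.symm)
  · rw [hk, mul_assoc] at h1 h2
    rw [← mul_left_cancel h1, ← mul_assoc] at h3
    rw [← mul_left_cancel h2, ← mul_assoc] at h4
    exact (mul_right_cancel h3).trans (mul_right_cancel h4).symm

/-- the conjugating word is a prefix of a power -/
theorem Zs_dvd' {H H' : FreeMonoid α →* FreeMonoid α} {z : FreeMonoid α} (hH : Pc H')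
    (hz : ∀ w, H w * z = z * H' w) (i : ℕ) {u : FreeMonoid α}
    (hu : u ≠ 1) (K : ℕ) (hK : (Zs H z i).length ≤ K) : Zs H z i ∣ (it H i u) ^ K := by
  have h1 := conj_it hz i (u ^ K)
  rw [map_pow] at h1
  have hlen : K ≤ ((it H i u) ^ K).length := by
    rw [length_pow]
    have h2 := congrArg length (conj_it hz i u)
    rw [length_mul, length_mul] at h2
    have h3 := (hH.it i).len u
    have h4 : 0 < u.length := by
      rcases Nat.eq_zero_or_pos u.length with h | h
      · exact absurd (length_eq_zero.1 h) hu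
      · exact h
    have h5 : 1 ≤ (it H i u).length := by omega
    nlinarith
  rcases cmp_of_mul h1 with h | h
  · have := len_le_of_dvd h
    rw [eq_of_dvd_len h (by omega)]
  · exact h

theorem len_conj {H H' : FreeMonoid α →* FreeMonoid α} {z : FreeMonoid α}
    (hz : ∀ w, H w * z = z * H' w) (i : ℕ) (w : FreeMonoid α) :
    (it H i w).length = (it H' i w).length := by
  have h := congrArg length (conj_it hz i w)
  rw [length_mul, length_mul] at h
  omega

section main

variable {H G H' G' : FreeMonoid α →* FreeMonoid α} {z y : FreeMonoid α}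

theorem cc_of_L' (hH : Pc H') (hG : Pc G') (hz : ∀ w, H w * z = z * H' w)
    (hy : ∀ w, G w * y = y * G' w) {t : ℕ} {v : FreeMonoid α}
    (hv : MM (it H) (it G) t v) :
    CC (it H') (it G') (Zs H z) (Zs G y) t v ∨ v = 1 := by
  by_cases hu1 : v = 1
  · right; exact hu1
  left
  intro i hi
  rw [← conj_it hz, ← conj_it hy, ← hv i hi]
  set K := max (Zs H z i).length (Zs G y i).length with hK
  have h1 := Zs_dvd' hH hz i hu1 K (le_max_left _ _)
  have h2 := Zs_dvd' hG hy i hu1 K (le_max_right _ _)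
  rw [← hv i hi] at h2
  rcases cmp_prefix (Or.inl (dvd_refl _)) h1 h2 with ⟨c, hc⟩ | ⟨c, hc⟩
  · left; exact ⟨c, by rw [hc, mul_assoc]⟩
  · right; exact ⟨c, by rw [hc, mul_assoc]⟩

/-- the branching pairs -/
def PP (H G : FreeMonoid α →* FreeMonoid α) (t : ℕ) (x y : α) : Prop :=
  x ≠ y ∧ ∃ p, (∃ u, MM (it H) (it G) t (p * (of x * u))) ∧
    ∃ v, MM (it H) (it G) t (p * (of y * v))

theorem PP.symm {t : ℕ} {a b : α} (h : PP H G t a b) : PP H G t b a := by
  obtain ⟨h1, p, h2, h3⟩ := h
  exact ⟨h1.symm, p, h3, h2⟩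

theorem PP.anti {s t : ℕ} (hst : s ≤ t) {a b : α} (h : PP H G t a b) : PP H G s a b := by
  obtain ⟨h1, p, ⟨u, hu⟩, ⟨v, hv⟩⟩ := h
  exact ⟨h1, p, ⟨u, hu.anti hst⟩, ⟨v, hv.anti hst⟩⟩

/-- comparability along prefixes of elements of the equality monoid -/
theorem cc_pre (hH : Pc H') (hG : Pc G') (hz : ∀ w, H w * z = z * H' w)
    (hy : ∀ w, G w * y = y * G' w) {t : ℕ} {p u : FreeMonoid α} {a : α}
    (hv : MM (it H) (it G) t (p * (of a * u))) :
    CC (it H') (it G') (Zs H z) (Zs G y) t (p * of a) := by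
  rcases cc_of_L' hH hG hz hy hv with h | h
  · rw [← mul_assoc] at h
    exact h.pre
  · exfalso
    have := congrArg length h
    rw [length_mul, length_mul, length_of, length_one] at this
    omega

/-- the offset at a branching -/
theorem state (hH : Pc H') (hG : Pc G') (hz : ∀ w, H w * z = z * H' w)
    (hy : ∀ w, G w * y = y * G' w) {t : ℕ} {p u v : FreeMonoid α} {a b : α}
    (ha : MM (it H) (it G) t (p * (of a * u))) (hb : MM (it H) (it G) t (p * (of b * v)))
    {i : ℕ} (hi : i ≤ t) {c d : FreeMonoid α} (hc : Fork (it H' i (of a)) (it H' i (of b)) c)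
    (hd : Fork (it G' i (of a)) (it G' i (of b)) d) :
    Zs H z i * it H' i p * c = Zs G y i * it G' i p * d :=
  fork_state (cc_pre hH hG hz hy ha i hi) (cc_pre hH hG hz hy hb i hi) hc hd

/-- words with the same offset have the same continuations -/
theorem cont (hz : ∀ w, H w * z = z * H' w)
    (hy : ∀ w, G w * y = y * G' w) {t : ℕ} {p q r : FreeMonoid α}
    (hst : ∀ i ≤ t, ∃ c d, (∃ s, it H' i r = c * s) ∧ (∃ s', it G' i r = d * s') ∧
      Zs H z i * it H' i p * c = Zs G y i * it G' i p * d ∧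
      Zs H z i * it H' i q * c = Zs G y i * it G' i q * d)
    (hq : MM (it H) (it G) t (q * r)) : MM (it H) (it G) t (p * r) := by
  intro i hi
  obtain ⟨c, d, ⟨s, hs⟩, ⟨s', hs'⟩, h1, h2⟩ := hst i hi
  have a1 := conj_it hz i (q * r)
  have a2 := conj_it hy i (q * r)
  have a3 := conj_it hz i (p * r)
  have a4 := conj_it hy i (p * r)
  rw [map_mul (it H' i), hs, ← mul_assoc, ← mul_assoc] at a1 a3
  rw [map_mul (it G' i), hs', ← mul_assoc, ← mul_assoc] at a2 a4
  rw [← h2, ← hq i hi] at a2
  rw [← h1] at a4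
  exact transfer a1 a2 a3 a4

end main

end Pool.Agent.Helper22.D0L
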