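import Pool.Agent.Helper22.D0L.Basic

/-!
# The potential
-/

set_option autoImplicit false

namespace Pool.Agent.Helper22.D0L

open FreeMonoid

variable {α : Type*} [Fintype α] [DecidableEq α]

/-- the Parikh vector -/
def parikh (w : FreeMonoid α) : α → ℚ := fun x => (w.toList.count x : ℚ)

omit [Fintype α] in
theorem parikh_one : parikh (1 : FreeMonoid α) = 0 := by
  funext x
  simp [parikh]

omit [Fintype α] in
theorem parikh_mul (u v : FreeMonoid α) : parikh (u * v) = parikh u + parikh v := by
  funext x
  simp [parikh, List.count_append]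

omit [Fintype α] in
theorem parikh_of (a : α) : parikh (of a) = Pi.single a 1 := by
  funext x
  by_cases h : x = a
  · subst h; simp [parikh]
  · rw [Pi.single_eq_of_ne h]
    have : (toList (of a)).count x = 0 := by
      rw [toList_of, List.count_eq_zero]
      simpa using h
    change (((toList (of a)).count x : ℕ) : ℚ) = 0
    rw [this, Nat.cast_zero]

/-- the length functional of a morphism -/
def lenF (A : FreeMonoid α →* FreeMonoid α) : (α → ℚ) →ₗ[ℚ] ℚ :=
  ∑ x, ((A (of x)).length : ℚ) • LinearMap.proj x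

theorem lenF_of (A : FreeMonoid α →* FreeMonoid α) (a : α) :
    lenF A (parikh (of a)) = ((A (of a)).length : ℚ) := by
  rw [parikh_of, lenF, LinearMap.sum_apply]
  rw [Finset.sum_eq_single a]
  · simp
  · intro b _ hb
    simp [Pi.single_eq_of_ne hb]
  · intro h; exact absurd (Finset.mem_univ a) h

theorem lenF_parikh (A : FreeMonoid α →* FreeMonoid α) (w : FreeMonoid α) :
    lenF A (parikh w) = ((A w).length : ℚ) := by
  induction w using FreeMonoid.recOn with
  | one => rw [parikh_one, map_zero, map_one, length_one]; rfl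
  | of_mul x xs ih =>
    rw [parikh_mul, map_add, ih, lenF_of, map_mul, length_mul]
    push_cast
    ring

variable (A B : ℕ → (FreeMonoid α →* FreeMonoid α))

open Classical in
/-- first letters of the words with equal images -/
noncomputable def ltrs (t : ℕ) : Finset α := Finset.univ.filter fun a => ∃ w, MM A B t (of a * w)

/-- span of the Parikh vectors -/
noncomputable def V (t : ℕ) : Submodule ℚ (α → ℚ) :=
  Submodule.span ℚ (parikh '' {w | MM A B t w})

/-- the potential -/
noncomputable def pot (t : ℕ) : ℕ := (ltrs A B t).card + Module.finrank ℚ (V A B t)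

variable {A B}

omit [DecidableEq α] in
theorem mem_ltrs {t : ℕ} {a : α} : a ∈ ltrs A B t ↔ ∃ w, MM A B t (of a * w) := by
  classical
  unfold ltrs
  rw [Finset.mem_filter]
  exact ⟨fun h => h.2, fun h => ⟨Finset.mem_univ _, h⟩⟩

omit [DecidableEq α] in
theorem ltrs_anti {s t : ℕ} (h : s ≤ t) : ltrs A B t ⊆ ltrs A B s := by
  intro a ha
  obtain ⟨w, hw⟩ := mem_ltrs.1 ha
  exact mem_ltrs.2 ⟨w, hw.anti h⟩

omit [Fintype α] in
theorem V_anti {s t : ℕ} (h : s ≤ t) : V A B t ≤ V A B s :=
  Submodule.span_mono (Set.image_mono fun _ hw => MM.anti h hw)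

omit [Fintype α] in
theorem mem_V {t : ℕ} {w : FreeMonoid α} (h : MM A B t w) : parikh w ∈ V A B t :=
  Submodule.subset_span ⟨w, h, rfl⟩

theorem pot_le (t : ℕ) : pot A B t ≤ 2 * Fintype.card α := by
  unfold pot
  have h1 : (ltrs A B t).card ≤ Fintype.card α := Finset.card_le_univ _
  have h2 : Module.finrank ℚ (V A B t) ≤ Fintype.card α := by
    have := Submodule.finrank_le (V A B t)
    rwa [Module.finrank_fintype_fun_eq_card] at this
  omega

theorem pot_pos {t : ℕ} {w : FreeMonoid α} (hw : MM A B t w) (hw1 : w ≠ 1) : 2 ≤ pot A B t := by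
  obtain ⟨a, u, rfl⟩ := exists_head hw1
  have h1 : 0 < (ltrs A B t).card := Finset.card_pos.2 ⟨a, mem_ltrs.2 ⟨u, hw⟩⟩
  have h2 : 0 < Module.finrank ℚ (V A B t) := by
    rw [Module.finrank_pos_iff_exists_ne_zero]
    refine ⟨⟨parikh (of a * u), mem_V hw⟩, ?_⟩
    intro h0
    have h3 : parikh (of a * u) = 0 := congrArg Subtype.val h0
    have h4 := congrFun h3 a
    rw [parikh_mul, parikh_of, Pi.add_apply, Pi.single_eq_same, Pi.zero_apply] at h4
    have h5 : (0 : ℚ) ≤ parikh u a := by unfold parikh; positivity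
    linarith
  unfold pot
  omega

variable (hA : ∀ i, Mk (A i)) (hB : ∀ i, Mk (B i))

include hA hB

/-- if neither the set of first letters nor the span changes, then nothing changes -/
theorem step_eq {t : ℕ} (h1 : ltrs A B (t + 1) = ltrs A B t) (h2 : V A B (t + 1) = V A B t)
    {w : FreeMonoid α} (hw : MM A B t w) : MM A B (t + 1) w := by
  -- the length functional
  have hlen : ∀ v, MM A B t v → (A (t + 1) v).length = (B (t + 1) v).length := by
    intro v hv
    have hle : V A B (t + 1) ≤ LinearMap.ker (lenF (A (t + 1)) - lenF (B (t + 1))) := by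
      unfold V
      rw [Submodule.span_le]
      rintro _ ⟨u, hu, rfl⟩
      rw [SetLike.mem_coe, LinearMap.mem_ker, LinearMap.sub_apply, lenF_parikh, lenF_parikh,
        hu (t + 1) le_rfl, sub_self]
    have h3 := hle (by rw [h2]; exact mem_V hv)
    rw [LinearMap.mem_ker, LinearMap.sub_apply, lenF_parikh, lenF_parikh, sub_eq_zero] at h3
    exact_mod_cast h3
  obtain ⟨n, hn⟩ : ∃ n, w.length ≤ n := ⟨_, le_rfl⟩
  induction n generalizing w with
  | zero =>
    have : w.length = 0 := by omega
    rw [length_eq_zero] at this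
    rw [this]
    exact MM.one _
  | succ n ih =>
    by_cases hw1 : w = 1
    · rw [hw1]; exact MM.one _
    obtain ⟨a, u, rfl⟩ := exists_head hw1
    obtain ⟨m, hm, hmin⟩ := shortest_M hA hB ⟨u, hw⟩
    obtain ⟨w₀, hw₀⟩ : ∃ w₀, MM A B (t + 1) (of a * w₀) := by
      rw [← mem_ltrs, h1, mem_ltrs]
      exact ⟨u, hw⟩
    obtain ⟨r, hr⟩ := hmin w₀ (hw₀.anti (Nat.le_succ t))
    obtain ⟨s, hs⟩ := hmin u hw
    have hm1 : MM A B (t + 1) (of a * m) := by
      intro i hi
      rcases Nat.lt_or_ge i (t + 1) with h | h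
      · exact hm i (by omega)
      · have hit : i = t + 1 := by omega
        subst hit
        have h3 := hw₀ (t + 1) le_rfl
        rw [hr, map_mul _ (of a * m), map_mul _ (of a * m)] at h3
        exact eq_of_mul_len h3 (hlen _ hm)
    rw [hs] at hw hn ⊢
    refine MM.mul hm1 (ih (hm.cancel_left hw) ?_)
    rw [length_mul, length_mul, length_of] at hn
    omega

theorem pot_succ {t : ℕ} (h : ¬ ∀ w, MM A B t w → MM A B (t + 1) w) :
    pot A B (t + 1) + 1 ≤ pot A B t := by
  have h1 := ltrs_anti (A := A) (B := B) (Nat.le_add_right t 1)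
  have h2 := V_anti (A := A) (B := B) (Nat.le_add_right t 1)
  have h3 := Finset.card_le_card h1
  have h4 := Submodule.finrank_mono h2
  unfold pot
  by_contra hc
  apply h
  intro w hw
  apply step_eq hA hB _ _ hw
  · exact Finset.eq_of_subset_of_card_le h1 (by omega)
  · exact Submodule.eq_of_le_of_finrank_le h2 (by omega)

/-- strictly decreasing chains are short -/
theorem pot_chain {t : ℕ} (h : ∀ s < t, ¬ ∀ w, MM A B s w → MM A B (s + 1) w) :
    pot A B t + t ≤ 2 * Fintype.card α := by
  induction t with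
  | zero => rw [add_zero]; exact pot_le 0
  | succ t ih =>
    have h1 := ih (fun s hs => h s (by omega))
    have h2 := pot_succ hA hB (h t (Nat.lt_succ_self t))
    omega

/-- if the potential is at most two then the words commute -/
theorem comm_of_pot {t : ℕ} (h : pot A B t ≤ 2) {u v : FreeMonoid α} (hu : MM A B t u)
    (hv : MM A B t v) : u * v = v * u := by
  by_cases hu1 : u = 1
  · rw [hu1, one_mul, mul_one]
  obtain ⟨a, u', rfl⟩ := exists_head hu1
  obtain ⟨m, hm, hmin⟩ := shortest_M hA hB ⟨u', hu⟩
  have hcard : (ltrs A B t).card ≤ 1 := by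
    by_contra hc
    push Not at hc
    have h2 : 0 < Module.finrank ℚ (V A B t) := by
      have := pot_pos hu hu1
      rw [Module.finrank_pos_iff_exists_ne_zero]
      refine ⟨⟨parikh (of a * u'), mem_V hu⟩, ?_⟩
      intro h0
      have h3 : parikh (of a * u') = 0 := congrArg Subtype.val h0
      have h4 := congrFun h3 a
      rw [parikh_mul, parikh_of, Pi.add_apply, Pi.single_eq_same, Pi.zero_apply] at h4
      have h5 : (0 : ℚ) ≤ parikh u' a := by unfold parikh; positivity
      linarith
    unfold pot at h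
    omega
  -- every word is a power of `m`
  have hpow : ∀ n, ∀ w : FreeMonoid α, w.length ≤ n → MM A B t w → ∃ k : ℕ, w = (of a * m) ^ k := by
    intro n
    induction n with
    | zero =>
      intro w hn _
      have : w.length = 0 := by omega
      rw [length_eq_zero] at this
      exact ⟨0, by rw [this, pow_zero]⟩
    | succ n ih =>
      intro w hn hw
      by_cases hw1 : w = 1
      · exact ⟨0, by rw [hw1, pow_zero]⟩
      obtain ⟨b, w', rfl⟩ := exists_head hw1
      have hab : b = a := by
        have := Finset.card_le_one.1 hcard b (mem_ltrs.2 ⟨w', hw⟩) a (mem_ltrs.2 ⟨u', hu⟩)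
        exact this
      subst hab
      obtain ⟨s, hs⟩ := hmin w' hw
      rw [hs] at hw hn ⊢
      rw [length_mul, length_mul, length_of] at hn
      obtain ⟨k, hk⟩ := ih s (by omega) (hm.cancel_left hw)
      exact ⟨k + 1, by rw [hk, pow_succ']⟩
  obtain ⟨k, hk⟩ := hpow _ _ le_rfl hu
  obtain ⟨l, hl⟩ := hpow _ _ le_rfl hv
  rw [hk, hl, ← pow_add, ← pow_add, add_comm]

end Pool.Agent.Helper22.D0L
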