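import Pool.Agent.Helper22.D0L.ClaimA

/-!
# Tree-like families of pairs and spans of differences of basis vectors
-/

set_option autoImplicit false

namespace Pool.Agent.Helper22.D0L

open FreeMonoid

variable {α : Type*} [Fintype α] [DecidableEq α]

/-- basis vector -/
def ev (x : α) : α → ℚ := Pi.single x 1

open Classical in
/-- the difference of basis vectors for a pair in `P`, and zero otherwise -/
noncomputable def edge (P : α → α → Prop) (q : α × α) : α → ℚ :=
  if P q.1 q.2 then ev q.1 - ev q.2 else 0

/-- the span of the differences of basis vectors for pairs in `P` -/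
noncomputable def DD (P : α → α → Prop) : Submodule ℚ (α → ℚ) :=
  Submodule.span ℚ (Set.range (edge P))

open Classical in
/-- the sum of the coordinates in `F` -/
noncomputable def gF (F : α → Prop) : (α → ℚ) →ₗ[ℚ] ℚ :=
  ∑ z, (if F z then (1 : ℚ) else 0) • LinearMap.proj z

omit [DecidableEq α] in
open Classical in
theorem gF_apply (F : α → Prop) (v : α → ℚ) : gF F v = ∑ z, if F z then v z else 0 := by
  unfold gF
  rw [LinearMap.sum_apply]
  apply Finset.sum_congr rfl
  intro z _
  rw [LinearMap.smul_apply, LinearMap.proj_apply, smul_eq_mul]
  split_ifs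
  · rw [one_mul]
  · rw [zero_mul]

open Classical in
theorem gF_ev (F : α → Prop) (x : α) : gF F (ev x) = if F x then 1 else 0 := by
  rw [gF_apply, Finset.sum_eq_single x]
  · unfold ev; rw [Pi.single_eq_same]
  · intro b _ hb
    unfold ev
    rw [Pi.single_eq_of_ne hb]
    split_ifs <;> rfl
  · intro h; exact absurd (Finset.mem_univ x) h

omit [Fintype α] in
theorem ev_same (x : α) : ev x x = 1 := by unfold ev; rw [Pi.single_eq_same]

omit [Fintype α] in
theorem ev_ne {x z : α} (h : z ≠ x) : ev x z = 0 := by unfold ev; rw [Pi.single_eq_of_ne h]

omit [Fintype α] in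
theorem edge_pos {P : α → α → Prop} {q : α × α} (h : P q.1 q.2) : edge P q = ev q.1 - ev q.2 := by
  unfold edge; rw [if_pos h]

omit [Fintype α] in
theorem edge_neg {P : α → α → Prop} {q : α × α} (h : ¬ P q.1 q.2) : edge P q = 0 := by
  unfold edge; rw [if_neg h]

theorem star {P Q : α → α → Prop} (W : α → FreeMonoid α) (N : α → α → FreeMonoid α)
    (hPs : ∀ x y, P x y → P y x) (hN : ∀ x y, P x y → Fork (W x) (W y) (N x y))
    (hcl : ∀ x y x' y', P x y → P x' y' → N x y = N x' y' → x ≠ x' → P x x' ∧ N x x' = N x y)
    (hQP : ∀ x y, Q x y → P x y) (hQs : ∀ x y, Q x y → Q y x)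
    (htr : ∀ x s y, Q x s → Q s y → x ≠ y → N x s = N s y → Q x y)
    {x y : α} (hxy : P x y) (hspan : ev x - ev y ∈ DD Q) : Q x y := by
  classical
  by_contra hQ
  have hNs : ∀ u v, P u v → N v u = N u v := fun u v h =>
    (hN v u (hPs u v h)).symm.uniq (hN u v h)
  have hne : ∀ u v, P u v → u ≠ v := by
    intro u v h huv
    subst huv
    obtain ⟨k, k', r, r', h1, h2, h3⟩ := hN u u h
    have := mul_left_cancel (h2.symm.trans h3)
    exact h1 (of_mul_inj this).1
  obtain ⟨c, hc⟩ := (Submodule.mem_span_range_iff_exists_fun ℚ).1 hspan
  set a : α × α → ℚ := fun q => (if Q q.1 q.2 then c q else 0) - (if q = (x, y) then 1 else 0)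
    with ha
  have h0 : ∑ q, a q • edge P q = 0 := by
    have h1 : ∑ q : α × α, (if Q q.1 q.2 then c q else 0) • edge P q = ev x - ev y := by
      rw [← hc]
      apply Finset.sum_congr rfl
      intro q _
      by_cases h : Q q.1 q.2
      · rw [if_pos h, edge_pos h, edge_pos (hQP _ _ h)]
      · rw [if_neg h, edge_neg h, zero_smul, smul_zero]
    have h2 : ∑ q : α × α, (if q = (x, y) then (1 : ℚ) else 0) • edge P q = ev x - ev y := by
      rw [Finset.sum_eq_single (x, y)]
      · rw [if_pos rfl, one_smul, edge_pos hxy]
      · intro b _ hb
        rw [if_neg hb, zero_smul]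
      · intro h; exact absurd (Finset.mem_univ _) h
    have h3 : ∑ q : α × α, a q • edge P q =
        ∑ q : α × α, (if Q q.1 q.2 then c q else 0) • edge P q -
        ∑ q : α × α, (if q = (x, y) then (1 : ℚ) else 0) • edge P q := by
      rw [← Finset.sum_sub_distrib]
      apply Finset.sum_congr rfl
      intro q _
      rw [ha, sub_smul]
    rw [h3, h1, h2, sub_self]
  set U : FreeMonoid α → (α → ℚ) := fun d =>
    ∑ q ∈ Finset.univ.filter (fun q : α × α => N q.1 q.2 = d), a q • edge P q with hU
  have hUz : ∀ n : ℕ, ∀ d : FreeMonoid α, d.length = n → U d = 0 := by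
    intro n
    induction n using Nat.strong_induction_on with
    | _ n ih =>
      intro d hd
      -- the small nodes
      have hlt : ∑ q ∈ Finset.univ.filter (fun q : α × α => (N q.1 q.2).length < n),
          a q • edge P q = 0 := by
        rw [← Finset.sum_fiberwise_of_maps_to (g := fun q : α × α => N q.1 q.2)
          (t := Finset.univ.image fun q : α × α => N q.1 q.2)
          (fun q _ => Finset.mem_image_of_mem _ (Finset.mem_univ q))]
        apply Finset.sum_eq_zero
        intro e _
        by_cases he : e.length < n
        · rw [← ih e.length he e rfl]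
          apply Finset.sum_congr _ (fun _ _ => rfl)
          ext q
          simp only [Finset.mem_filter, Finset.mem_univ, true_and]
          constructor
          · rintro ⟨-, h2⟩; exact h2
          · intro h2; exact ⟨by rw [h2]; exact he, h2⟩
        · apply Finset.sum_eq_zero
          intro q hq
          rw [Finset.mem_filter, Finset.mem_filter] at hq
          exfalso
          apply he
          rw [← hq.2]
          exact hq.1.2
      funext s
      by_cases hs : ∃ s', P s s' ∧ N s s' = d
      · obtain ⟨s', hP, hNd⟩ := hs
        obtain ⟨k, k', r, r', hk, hWs, hWs'⟩ := hN s s' hP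
        rw [hNd] at hWs hWs'
        set F : α → Prop := fun z => d * of k ∣ W z with hF
        have hFs : F s := ⟨r, by rw [hWs, mul_assoc]⟩
        -- value of the functional on `U d`
        have g1 : gF F (U d) = U d s := by
          rw [gF_apply, Finset.sum_eq_single s]
          · rw [if_pos hFs]
          · intro z _ hz
            split_ifs with hFz
            · rw [hU]
              simp only [Finset.sum_apply]
              apply Finset.sum_eq_zero
              intro q hq
              rw [Finset.mem_filter] at hq
              rw [Pi.smul_apply]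
              by_cases hPq : P q.1 q.2
              · rw [edge_pos hPq, Pi.sub_apply]
                have hz1 : ∀ z', P z z' → N z z' = d → False := by
                  intro z' h1 h2
                  obtain ⟨h3, h4⟩ := hcl s s' z z' hP h1 (hNd.trans h2.symm) (Ne.symm hz)
                  obtain ⟨l, l', t, t', hl, e1, e2⟩ := hN s z h3
                  rw [h4, hNd] at e1 e2
                  rw [e1] at hWs
                  have e3 := (of_mul_inj (mul_left_cancel hWs)).1
                  obtain ⟨f, hf⟩ := hFz
                  rw [e2, mul_assoc] at hf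
                  have e4 := (of_mul_inj (mul_left_cancel hf)).1
                  exact hl (e3.trans e4.symm)
                have n1 : z ≠ q.1 := by
                  rintro rfl
                  exact hz1 q.2 hPq hq.2
                have n2 : z ≠ q.2 := by
                  rintro rfl
                  exact hz1 q.1 (hPs _ _ hPq) ((hNs _ _ hPq).trans hq.2)
                rw [ev_ne n1, ev_ne n2, sub_self, smul_zero]
              · rw [edge_neg hPq, Pi.zero_apply, smul_zero]
            · rfl
          · intro h; exact absurd (Finset.mem_univ s) h
        -- large nodes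
        have g2 : gF F (∑ q ∈ Finset.univ.filter (fun q : α × α =>
            ¬ (N q.1 q.2).length < n ∧ N q.1 q.2 ≠ d), a q • edge P q) = 0 := by
          rw [map_sum]
          apply Finset.sum_eq_zero
          intro q hq
          rw [Finset.mem_filter] at hq
          obtain ⟨-, hq1, hq2⟩ := hq
          rw [map_smul]
          by_cases hPq : P q.1 q.2
          · rw [edge_pos hPq, map_sub, gF_ev, gF_ev]
            have key : ∀ u v, P u v → n ≤ (N u v).length → N u v ≠ d → F u → F v := by
              intro u v hP' hlen hNd' hFu
              obtain ⟨l, l', t, t', hl, e1, e2⟩ := hN u v hP'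
              have hcmp : Cmp (d * of k) (N u v) := by
                obtain ⟨f, hf⟩ := hFu
                rw [e1] at hf
                exact cmp_of_mul hf.symm
              have hcmp2 : Cmp d (N u v) := cmp_prefix hcmp ⟨of k, rfl⟩ (dvd_refl _)
              have hlt' : d.length < (N u v).length := by
                rcases Nat.lt_or_ge d.length (N u v).length with h | h
                · exact h
                · exfalso
                  exact hNd' (hcmp2.eq_of_len (by omega)).symm
              have hdvd : d * of k ∣ N u v := by
                rcases hcmp with h | h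
                · exact h
                · have h5 := len_le_of_dvd h
                  rw [length_mul, length_of] at h5
                  rw [eq_of_dvd_len h (by rw [length_mul, length_of]; omega)]
              obtain ⟨f, hf⟩ := hdvd
              exact ⟨f * (of l' * t'), by rw [e2, hf]; simp only [mul_assoc]⟩
            have hiff : F q.1 ↔ F q.2 := by
              constructor
              · exact key _ _ hPq (by omega) hq2
              · exact key _ _ (hPs _ _ hPq) (by rw [hNs _ _ hPq]; omega)
                  (by rw [hNs _ _ hPq]; exact hq2)
            by_cases h : F q.1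
            · rw [if_pos h, if_pos (hiff.1 h), sub_self, smul_zero]
            · rw [if_neg h, if_neg (fun h' => h (hiff.2 h')), sub_self, smul_zero]
          · rw [edge_neg hPq, map_zero, smul_zero]
        -- decomposition of the sum
        have g3 : (0 : α → ℚ) = U d + ∑ q ∈ Finset.univ.filter (fun q : α × α =>
            ¬ (N q.1 q.2).length < n ∧ N q.1 q.2 ≠ d), a q • edge P q := by
          rw [← h0, ← Finset.sum_filter_add_sum_filter_not Finset.univ
            (fun q : α × α => (N q.1 q.2).length < n), hlt, zero_add,
            ← Finset.sum_filter_add_sum_filter_not (Finset.univ.filter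
              (fun q : α × α => ¬ (N q.1 q.2).length < n)) (fun q : α × α => N q.1 q.2 = d),
            Finset.filter_filter, Finset.filter_filter]
          congr 1
          rw [hU]
          apply Finset.sum_congr _ (fun _ _ => rfl)
          ext q
          simp only [Finset.mem_filter, Finset.mem_univ, true_and]
          constructor
          · rintro ⟨-, h2⟩; exact h2
          · intro h2; exact ⟨by rw [h2, hd]; exact lt_irrefl _, h2⟩
        have g4 := congrArg (gF F) g3
        rw [map_zero, map_add, g1, g2, add_zero] at g4
        rw [← g4]; rfl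
      · rw [hU]
        simp only [Finset.sum_apply]
        apply Finset.sum_eq_zero
        intro q hq
        rw [Finset.mem_filter] at hq
        rw [Pi.smul_apply]
        by_cases hPq : P q.1 q.2
        · rw [edge_pos hPq, Pi.sub_apply]
          have n1 : s ≠ q.1 := by
            rintro rfl
            exact hs ⟨q.2, hPq, hq.2⟩
          have n2 : s ≠ q.2 := by
            rintro rfl
            exact hs ⟨q.1, hPs _ _ hPq, (hNs _ _ hPq).trans hq.2⟩
          rw [ev_ne n1, ev_ne n2, sub_self, smul_zero]
        · rw [edge_neg hPq, Pi.zero_apply, smul_zero]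
  -- the class of `x`
  set F : α → Prop := fun s => s = x ∨ (Q x s ∧ N x s = N x y) with hF
  have h4 := congrArg (gF F) (hUz _ (N x y) rfl)
  rw [map_zero, hU, map_sum, Finset.sum_eq_single (x, y)] at h4
  · rw [map_smul, edge_pos hxy, map_sub, gF_ev, gF_ev, if_pos (Or.inl rfl)] at h4
    have hFy : ¬ F y := by
      rintro (h | h)
      · exact hne x y hxy h.symm
      · exact hQ h.1
    rw [if_neg hFy, ha] at h4
    simp [hQ] at h4
  · intro q hq hqne
    rw [Finset.mem_filter] at hq
    rw [map_smul]
    by_cases hQq : Q q.1 q.2
    · have hPq := hQP _ _ hQq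
      rw [edge_pos hPq, map_sub, gF_ev, gF_ev]
      have key : ∀ u v, Q u v → N u v = N x y → F u → F v := by
        rintro u v h1 h2 (rfl | ⟨h3, h5⟩)
        · exact Or.inr ⟨h1, h2⟩
        · by_cases hvx : v = x
          · exact Or.inl hvx
          · right
            have h6 := htr x u v h3 h1 (Ne.symm hvx) (h5.trans h2.symm)
            refine ⟨h6, ?_⟩
            have hvu : N v u = N u v := hNs u v (hQP _ _ h1)
            obtain ⟨h7, h8⟩ := hcl x u v u (hQP _ _ h3) (hPs _ _ (hQP _ _ h1))
              (by rw [hvu, h5, h2]) (Ne.symm hvx)
            rw [h8, h5]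
      have hiff : F q.1 ↔ F q.2 := by
        constructor
        · exact key _ _ hQq hq.2
        · exact key _ _ (hQs _ _ hQq) ((hNs _ _ hPq).trans hq.2)
      by_cases h : F q.1
      · rw [if_pos h, if_pos (hiff.1 h), sub_self, smul_zero]
      · rw [if_neg h, if_neg (fun h' => h (hiff.2 h')), sub_self, smul_zero]
    · have : a q = 0 := by
        rw [ha]
        simp only [if_neg hQq, if_neg hqne, sub_self]
      rw [this, zero_smul]
  · intro h
    exfalso
    apply h
    rw [Finset.mem_filter]
    exact ⟨Finset.mem_univ _, rfl⟩

omit [Fintype α] in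
theorem DD_mono {P Q : α → α → Prop} (h : ∀ x y, Q x y → P x y) : DD Q ≤ DD P := by
  unfold DD
  rw [Submodule.span_le]
  rintro _ ⟨q, rfl⟩
  by_cases hq : Q q.1 q.2
  · rw [edge_pos hq, ← edge_pos (h _ _ hq)]
    exact Submodule.subset_span ⟨q, rfl⟩
  · rw [edge_neg hq]
    exact Submodule.zero_mem _

omit [Fintype α] in
theorem mem_DD {P : α → α → Prop} {x y : α} (h : P x y) : ev x - ev y ∈ DD P := by
  have : ev x - ev y = edge P (x, y) := (edge_pos (q := (x, y)) h).symm
  rw [this]
  exact Submodule.subset_span ⟨(x, y), rfl⟩

/-- the dimension of the span of differences is less than the number of letters -/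
theorem DD_finrank [Nonempty α] (P : α → α → Prop) :
    Module.finrank ℚ (DD P) + 1 ≤ Fintype.card α := by
  classical
  have h1 : DD P ≤ LinearMap.ker (gF (fun _ : α => True)) := by
    unfold DD
    rw [Submodule.span_le]
    rintro _ ⟨q, rfl⟩
    rw [SetLike.mem_coe, LinearMap.mem_ker]
    by_cases hq : P q.1 q.2
    · rw [edge_pos hq, map_sub, gF_ev, gF_ev, if_pos trivial, sub_self]
    · rw [edge_neg hq, map_zero]
  have h2 : DD P ≠ ⊤ := by
    intro h
    obtain ⟨x⟩ := ‹Nonempty α›
    have h3 : ev x ∈ DD P := by rw [h]; trivial
    have h4 := h1 h3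
    rw [LinearMap.mem_ker, gF_ev, if_pos trivial] at h4
    exact one_ne_zero h4
  have h3 := Submodule.finrank_lt h2
  rw [Module.finrank_fintype_fun_eq_card] at h3
  omega

end Pool.Agent.Helper22.D0L
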